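import Pool.Agent.Run7.h354.BE.Stm2

/-!
# KUN: theta functions of two variables
-/

set_option autoImplicit false
set_option linter.unusedSectionVars false
set_option linter.unusedVariables false

open CategoryTheory CategoryTheory.Limits Complex ZeroObject

namespace Run7.h299.BEKUN

open Run7.h354.BE

variable {τ τ' : ℂ}

/-- The restriction of a function of two variables. -/
def sl {a : Gam2} (f : W τ τ' a) (z : ℂ) : V τ' a.2 := ⟨fun w => f.1 (z, w), W_left f.2 z⟩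

/-- Evaluation. -/
def ev {γ : Gam} (w : ℂ) : V τ' γ →ₗ[ℂ] ℂ where
  toFun f := f.1 w
  map_add' _ _ := rfl
  map_smul' _ _ := rfl

theorem span_ev (γ : Gam) [Module.Finite ℂ (V τ' γ)] :
    Submodule.span ℂ (Set.range (ev (τ' := τ') (γ := γ))) = ⊤ := by
  rw [← Subspace.dualCoannihilator_dualAnnihilator_eq
    (W := Submodule.span ℂ (Set.range (ev (τ' := τ') (γ := γ))))]
  have h : (Submodule.span ℂ (Set.range (ev (τ' := τ') (γ := γ)))).dualCoannihilator = ⊥ := by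
    rw [eq_bot_iff]
    intro x hx
    rw [Submodule.mem_dualCoannihilator] at hx
    rw [Submodule.mem_bot]
    refine Subtype.ext (funext fun w => ?_)
    exact hx (ev w) (Submodule.subset_span ⟨w, rfl⟩)
  rw [h]
  exact Submodule.dualAnnihilator_bot

theorem coef {a : Gam2} [Module.Finite ℂ (V τ' a.2)] (f : W τ τ' a) (φ : V τ' a.2 →ₗ[ℂ] ℂ) :
    (fun z => φ (sl f z)) ∈ V τ a.1 := by
  have h : φ ∈ Submodule.span ℂ (Set.range (ev (τ' := τ') (γ := a.2))) := by
    rw [span_ev]; trivial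
  induction h using Submodule.span_induction with
  | mem x hx =>
    obtain ⟨w, rfl⟩ := hx
    exact W_right f.2 w
  | zero => exact Submodule.zero_mem _
  | add x y _ _ hx hy => exact Submodule.add_mem _ hx hy
  | smul c x _ hx => exact Submodule.smul_mem _ c hx

theorem decomp {a : Gam2} [Module.Finite ℂ (V τ' a.2)] (f : W τ τ' a) :
    ∃ (n : ℕ) (g h : Fin n → ℂ → ℂ), (∀ i, g i ∈ V τ a.1) ∧ (∀ i, h i ∈ V τ' a.2) ∧
    (f.1 = ∑ i, pr (g i) (h i)) ∧ ∀ z, (∀ w, f.1 (z, w) = 0) → ∀ i, g i z = 0 := by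
  let b := Module.finBasis ℂ (V τ' a.2)
  refine ⟨_, fun i z => b.coord i (sl f z), fun i => (b i).1, fun i => coef f _,
    fun i => (b i).2, ?_, fun z hz i => ?_⟩
  · funext p
    obtain ⟨z, w⟩ := p
    have h := b.sum_repr (sl f z)
    have h2 : (∑ i, b.repr (sl f z) i • b i).1 w = (sl f z).1 w := by rw [h]
    rw [Submodule.coe_sum, Finset.sum_apply] at h2
    rw [Finset.sum_apply]
    exact h2.symm
  · have h0 : sl f z = 0 := Subtype.ext (funext fun w => hz w)
    show b.coord i (sl f z) = 0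
    rw [h0, map_zero]

theorem fin_W {a : Gam2} [Module.Finite ℂ (V τ' a.2)] [Module.Finite ℂ (V τ a.1)] :
    Module.Finite ℂ (W τ τ' a) := by
  let b := Module.finBasis ℂ (V τ' a.2)
  let T : W τ τ' a →ₗ[ℂ] (Fin (Module.finrank ℂ (V τ' a.2)) → V τ a.1) :=
    { toFun := fun f i => ⟨fun z => b.coord i (sl f z), coef f _⟩
      map_add' := fun f g => by
        refine funext fun i => Subtype.ext (funext fun z => ?_)
        exact map_add (b.coord i) (sl f z) (sl g z)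
      map_smul' := fun c f => by
        refine funext fun i => Subtype.ext (funext fun z => ?_)
        exact map_smul (b.coord i) c (sl f z) }
  refine Module.Finite.of_injective T ?_
  rw [← LinearMap.ker_eq_bot, eq_bot_iff]
  intro f hf
  rw [LinearMap.mem_ker] at hf
  rw [Submodule.mem_bot]
  refine Subtype.ext (funext fun p => ?_)
  have h1 : sl f p.1 = 0 := by
    refine b.ext_elem fun i => ?_
    have h2 : b.coord i (sl f p.1) = 0 := congrArg (fun g => (g i).1 p.1) hf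
    simpa using h2
  exact congrArg (fun g => g.1 p.2) h1

theorem W_sum {a : Gam2} {n : ℕ} (F : Fin n → ℂ × ℂ → ℂ) (h : ∀ i, F i ∈ W τ τ' a) :
    ∑ i, F i ∈ W τ τ' a := Submodule.sum_mem _ fun i _ => h i

theorem left {u : ℂ → ℂ → ℂ} (hu : TH τ u) {a : Gam2} [Module.Finite ℂ (V τ' a.2)] (f : W τ τ' a)
    (z : ℂ) (hz : ∀ w, f.1 (z, w) = 0) : ∃ k ∈ W τ τ' (a - (gu z, 0)), f.1 = pr (u z) 1 * k := by
  obtain ⟨n, g, h, hg, hh, e, e'⟩ := decomp f
  have h1 := fun i => hu.div z a.1 (g i) (hg i) (e' z hz i)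
  choose g' hg' e1 using h1
  refine ⟨∑ i, pr (g' i) (h i), W_sum _ fun i => ?_, ?_⟩
  · have h2 : a - (gu z, 0) = (a.1 - gu z, a.2) := Prod.ext rfl (sub_zero _)
    rw [h2]
    exact W_pr (hg' i) (hh i)
  · rw [e, Finset.mul_sum]
    refine Finset.sum_congr rfl fun i _ => ?_
    funext p
    show g i p.1 * h i p.2 = (u z p.1 * 1) * (g' i p.1 * h i p.2)
    rw [e1 i, Pi.mul_apply]
    ring

theorem W_swap {a : Gam2} {f : ℂ × ℂ → ℂ} (hf : f ∈ W τ τ' a) :
    f ∘ Prod.swap ∈ W τ' τ (a.2, a.1) :=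
  ⟨hf.1.comp (differentiable_snd.prodMk differentiable_fst), fun z w => hf.2.2.1 w z,
    fun z w => hf.2.1 w z, fun z w => hf.2.2.2.2 w z, fun z w => hf.2.2.2.1 w z⟩

theorem right {v : ℂ → ℂ → ℂ} (hv : TH τ' v) {a : Gam2} [Module.Finite ℂ (V τ a.1)] (f : W τ τ' a)
    (w : ℂ) (hw : ∀ z, f.1 (z, w) = 0) : ∃ k ∈ W τ τ' (a - (0, gu w)), f.1 = pr 1 (v w) * k := by
  obtain ⟨k, hk, e⟩ := left (τ := τ') (τ' := τ) hv (a := (a.2, a.1)) ⟨_, W_swap f.2⟩ w
    (fun z => hw z)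
  have h2 : a - (0, gu w) = (((a.2, a.1) - (gu w, 0) : Gam2).2, ((a.2, a.1) - (gu w, 0) : Gam2).1) :=
    Prod.ext (by simp only [Prod.fst_sub, Prod.snd_sub]) (by simp only [Prod.fst_sub, Prod.snd_sub])
  rw [h2]
  refine ⟨k ∘ Prod.swap, W_swap hk, ?_⟩
  funext p
  have h := congrFun e (p.2, p.1)
  have h1 : f.1 p = v w p.2 * 1 * k (p.2, p.1) := h
  have h3 : (pr 1 (v w) * k ∘ Prod.swap) p = (1 * v w p.2) * k (p.2, p.1) := rfl
  rw [h1, h3, mul_one, one_mul]

theorem p_KUN : S_KUN := by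
  intro τ τ' hτ hτ' u v hu hv a
  have := hu.fin a.1
  have := hv.fin a.2
  refine ⟨fin_W, fun f hf => ⟨?_, fun z hz => left hu ⟨f, hf⟩ z hz,
    fun w hw => right hv ⟨f, hf⟩ w hw, fun z w hzw => ?_⟩⟩
  · obtain ⟨n, g, h, hg, hh, e, -⟩ := decomp ⟨f, hf⟩
    exact ⟨n, g, h, hg, hh, e⟩
  · by_cases h : ∃ g ∈ V τ a.1, g z ≠ 0
    · obtain ⟨g, hg, hgz⟩ := h
      obtain ⟨h', hh', e⟩ := hv.div w a.2 (fun w => f (z, w)) (W_left hf z) hzw
      have hF : pr ((g z)⁻¹ • g) h' ∈ W τ τ' (a - (0, gu w)) := by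
        have h2 : a - (0, gu w) = (a.1, a.2 - gu w) := Prod.ext (sub_zero _) rfl
        rw [h2]
        exact W_pr (Submodule.smul_mem _ _ hg) hh'
      have hv1 : pr 1 (v w) ∈ W τ τ' (0, gu w) := W_pr V_one (hv.mem w)
      have hm := W_mul hv1 hF
      rw [add_sub_cancel] at hm
      obtain ⟨k, hk, ek⟩ := left hu ⟨f - pr 1 (v w) * pr ((g z)⁻¹ • g) h',
        Submodule.sub_mem _ hf hm⟩ z (fun w' => by
          have e2 := congrFun e w'
          show f (z, w') - (1 * v w w') * (((g z)⁻¹ * g z) * h' w') = 0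
          have e3 : f (z, w') = v w w' * h' w' := e2
          rw [e3, inv_mul_cancel₀ hgz]
          ring)
      refine ⟨k, hk, _, hF, ?_⟩
      rw [← ek]
      ring
    · push Not at h
      obtain ⟨k, hk, e⟩ := left hu ⟨f, hf⟩ z (fun w' => h _ (W_right hf w'))
      exact ⟨k, hk, 0, Submodule.zero_mem _, by rw [mul_zero, add_zero]; exact e⟩

end Run7.h299.BEKUN
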