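import Pool.Agent.Run7.h354.BE.Stm2

/-!
# SEC: sections and factorization of theta functions
-/

set_option autoImplicit false
set_option linter.unusedSectionVars false
set_option linter.unusedVariables false

open CategoryTheory CategoryTheory.Limits Complex ZeroObject

namespace Run7.h299.BESEC

open Run7.h354.BE

variable {τ : ℂ} (hτ : 0 < τ.im) {u : ℂ → ℂ → ℂ} (hu : TH τ u)

include hτ in
/-- A real number congruent to zero is an integer. -/
theorem Cg_real {z a : ℂ} {r : ℝ} (h : Cg τ z a) (hr : z - a = (r : ℂ)) : ∃ m : ℤ, r = m := by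
  obtain ⟨m, n, e⟩ := h
  rw [hr] at e
  have h1 := congrArg Complex.im e
  simp only [ofReal_im, add_im, intCast_im, mul_im, intCast_re, zero_add, zero_mul, add_zero] at h1
  have h2 : (n : ℝ) = 0 := by
    rcases mul_eq_zero.1 h1.symm with h | h
    · exact h
    · exact absurd h hτ.ne'
  have h3 := congrArg Complex.re e
  simp only [ofReal_re, add_re, intCast_re, mul_re, intCast_im, h2, zero_mul, sub_self,
    add_zero] at h3
  exact ⟨m, h3⟩

theorem Cg_sub {τ a b c d : ℂ} (h : Cg τ a b) (h' : Cg τ c d) : Cg τ (a - c) (b - d) := by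
  obtain ⟨m, n, e⟩ := h
  obtain ⟨m', n', e'⟩ := h'
  refine ⟨m - m', n - n', ?_⟩
  push_cast
  linear_combination e - e'

theorem third_ne (j : ℤ) (h1 : ¬ (3 ∣ j)) (m : ℤ) : ((j : ℝ) / 3) ≠ m := by
  intro h
  apply h1
  refine ⟨m, ?_⟩
  have h2 : (j : ℝ) = 3 * m := by linarith [h]
  exact_mod_cast h2

include hτ in
theorem not_Cg (z : ℂ) (j : ℤ) (h1 : ¬ (3 ∣ j)) : ¬ Cg τ z (z + ((j : ℝ) / 3 : ℝ)) := by
  intro h
  obtain ⟨m, hm⟩ := Cg_real hτ (r := -((j : ℝ) / 3)) h (by push_cast; ring)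
  apply third_ne j h1 (-m)
  push_cast
  linarith

include hτ in
/-- The choice of two zeros. -/
theorem choose_zero (z s : ℂ) : ∃ a, ¬ Cg τ z a ∧ ¬ Cg τ z (s - a) := by
  by_cases h : Cg τ z (s - (z + (((1 : ℤ) : ℝ) / 3 : ℝ)))
  · refine ⟨z + (((2 : ℤ) : ℝ) / 3 : ℝ), not_Cg hτ z 2 (by decide), fun h' => ?_⟩
    obtain ⟨m, hm⟩ := Cg_real hτ (r := ((1 : ℤ) : ℝ) / 3) (Cg_sub h' h) (by push_cast; ring)
    exact third_ne 1 (by decide) m hm
  · exact ⟨_, not_Cg hτ z 1 (by decide), h⟩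


theorem gu_c (a : ℂ) : (gu a).c = -exp (2 * Real.pi * I * a) := by
  simp [gu, Gam.c]

theorem gu_1 (a : ℂ) : (gu a).1 = 1 := rfl

theorem gu_add (a b : ℂ) : (gu a + gu b).c = exp (2 * Real.pi * I * (a + b)) := by
  rw [Gam.c_add, gu_c, gu_c, mul_add, exp_add]
  ring

theorem exists_log (c : ℂ) (hc : c ≠ 0) : ∃ s : ℂ, exp (2 * Real.pi * I * s) = c :=
  ⟨log c / (2 * Real.pi * I), by
    rw [mul_div_cancel₀ _ two_pi_I_ne_zero, exp_log hc]⟩

include hτ hu in
theorem sec2 (γ : Gam) (z : ℂ) (h : γ.1 = 2) : ∃ g ∈ V τ γ, g z ≠ 0 := by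
  obtain ⟨s, hs⟩ := exists_log γ.c γ.c_ne
  obtain ⟨a, h1, h2⟩ := choose_zero hτ z s
  refine ⟨u a * u (s - a), ?_, ?_⟩
  · have e : γ = gu a + gu (s - a) := by
      refine Gam.ext' ?_ ?_
      · rw [h]; rfl
      · rw [gu_add, ← hs]; congr 1; ring
    rw [e]
    exact V_mul (hu.mem a) (hu.mem _)
  · rw [Pi.mul_apply]
    exact mul_ne_zero (fun h => h1 ((hu.zero a z).1 h)) (fun h => h2 ((hu.zero _ z).1 h))

include hτ hu in
theorem sec (n : ℕ) : ∀ (γ : Gam) (z : ℂ), γ.1 = 2 + n → ∃ g ∈ V τ γ, g z ≠ 0 := by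
  induction n with
  | zero => intro γ z h; exact sec2 hτ hu γ z (by simpa using h)
  | succ n ih =>
    intro γ z h
    obtain ⟨a, h1, -⟩ := choose_zero hτ z 0
    obtain ⟨g, hg, hz⟩ := ih (γ - gu a) z (by
      show γ.1 - 1 = _
      rw [h]; push_cast; ring)
    refine ⟨u a * g, ?_, ?_⟩
    · have := V_mul (hu.mem a) hg
      rwa [add_sub_cancel] at this
    · rw [Pi.mul_apply]
      exact mul_ne_zero (fun h => h1 ((hu.zero a z).1 h)) hz

include hu in
theorem fact (n : ℕ) : ∀ (γ : Gam) (g : ℂ → ℂ), g ∈ V τ γ → g ≠ 0 → γ.1 = n →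
    ∃ (l : List ℂ) (k : ℤ) (r : ℂ), r ≠ 0 ∧
    γ.1 = l.length ∧ ∀ z, g z = r * exp (2 * Real.pi * I * k * z) * (l.map fun a => u a z).prod := by
  induction n with
  | zero =>
    intro γ g hg hne h
    obtain ⟨k, r, hr, e⟩ := hu.deg0 γ g hg (by simpa using h) hne
    exact ⟨[], k, r, hr, by simpa using h, fun z => by simp [e]⟩
  | succ n ih =>
    intro γ g hg hne h
    obtain ⟨a, ha⟩ := hu.pos γ g hg (by rw [h]; positivity)
    obtain ⟨g', hg', e⟩ := hu.div a γ g hg ha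
    obtain ⟨l, k, r, hr, hl, e'⟩ := ih (γ - gu a) g' hg'
      (fun h0 => hne (by rw [e, h0, mul_zero])) (by
        show γ.1 - 1 = _
        rw [h]; push_cast; ring)
    refine ⟨a :: l, k, r, hr, ?_, fun z => ?_⟩
    · have h2 : γ.1 - 1 = l.length := hl
      rw [List.length_cons]; push_cast; linarith
    · rw [e, Pi.mul_apply, e']
      simp only [List.map_cons, List.prod_cons]
      ring

theorem p_SEC : S_SEC := by
  intro τ hτ u hu
  refine ⟨fun γ z h => ?_, fun γ g hg hne => ?_⟩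
  · exact sec hτ hu (γ.1 - 2).toNat γ z (by rw [Int.toNat_of_nonneg (by linarith)]; ring)
  · have h0 : 0 ≤ γ.1 := by
      by_contra h
      exact hne (hu.neg γ g hg (by linarith))
    exact fact hu γ.1.toNat γ g hg hne (Int.toNat_of_nonneg h0).symm

end Run7.h299.BESEC
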