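import Pool.Agent.Run7.h354.BE.Stm

/-!
# Piece TH: theta functions of one elliptic curve
-/

set_option autoImplicit false

open Complex Filter Topology

namespace Run7.h299.BETH

open Run7.h354.BE

/-! ### The product -/

/-- the product `∏ (1 - q ^ n x)` -/
noncomputable def P (q x : ℂ) : ℂ := ∏' n : ℕ, (1 + -(q ^ n * x))

section product

variable {q : ℂ} (hq : ‖q‖ < 1)

include hq

theorem summ (x : ℂ) : Summable (fun n : ℕ => ‖-(q ^ n * x)‖) := by
  simp only [norm_neg, norm_mul, norm_pow]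
  exact (summable_geometric_of_lt_one (norm_nonneg _) hq).mul_right _

theorem mult (x : ℂ) : Multipliable (fun n : ℕ => 1 + -(q ^ n * x)) :=
  multipliable_one_add_of_summable (summ hq x)

theorem P_step (x : ℂ) : P q x = (1 - x) * P q (q * x) := by
  have h : Multipliable (fun n : ℕ => (fun n : ℕ => 1 + -(q ^ n * x)) (n + 1)) := by
    have h1 := mult hq (q * x)
    have h2 : (fun n : ℕ => 1 + -(q ^ n * (q * x))) =
        (fun n : ℕ => (fun n : ℕ => 1 + -(q ^ n * x)) (n + 1)) := by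
      funext n
      show 1 + -(q ^ n * (q * x)) = 1 + -(q ^ (n + 1) * x)
      ring
    rwa [h2] at h1
  have h3 : P q x = (fun n : ℕ => 1 + -(q ^ n * x)) 0 *
      ∏' n : ℕ, (fun n : ℕ => 1 + -(q ^ n * x)) (n + 1) := tprod_eq_zero_mul' h
  have h4 : P q (q * x) = ∏' n : ℕ, (fun n : ℕ => 1 + -(q ^ n * x)) (n + 1) := by
    unfold P
    refine tprod_congr fun n => ?_
    show 1 + -(q ^ n * (q * x)) = 1 + -(q ^ (n + 1) * x)
    ring
  rw [h3, h4]
  congr 1
  show 1 + -(q ^ 0 * x) = 1 - x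
  ring

theorem P_zero (x : ℂ) : P q x = 0 ↔ ∃ n : ℕ, q ^ n * x = 1 := by
  constructor
  · intro h
    by_contra hc
    push Not at hc
    refine tprod_one_add_ne_zero_of_summable (f := fun n : ℕ => -(q ^ n * x)) (fun n h1 => ?_)
      (summ hq x) h
    exact hc n (by linear_combination -h1)
  · rintro ⟨n, hn⟩
    exact tprod_of_exists_eq_zero ⟨n, by rw [hn]; ring⟩

theorem P_diff : Differentiable ℂ (P q) := by
  intro x
  have h1 : HasProdLocallyUniformlyOn (fun (n : ℕ) (x : ℂ) => 1 + -(q ^ n * x)) (P q)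
      (Metric.ball 0 (‖x‖ + 1)) := by
    refine Summable.hasProdLocallyUniformlyOn_nat_one_add (u := fun n => ‖q‖ ^ n * (‖x‖ + 1))
      Metric.isOpen_ball ((summable_geometric_of_lt_one (norm_nonneg _) hq).mul_right _)
      (.of_forall fun n y hy => ?_) (fun n => by fun_prop)
    rw [norm_neg, norm_mul, norm_pow]
    rw [Metric.mem_ball, dist_zero_right] at hy
    exact mul_le_mul_of_nonneg_left hy.le (by positivity)
  have h2 : DifferentiableOn ℂ (P q) (Metric.ball 0 (‖x‖ + 1)) :=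
    h1.differentiableOn (.of_forall fun _ => by
      simpa [Finset.prod_fn] using DifferentiableOn.finsetProd (fun _ _ => by fun_prop))
      Metric.isOpen_ball
  refine h2.differentiableAt (Metric.isOpen_ball.mem_nhds ?_)
  rw [Metric.mem_ball, dist_zero_right]
  linarith

end product

/-! ### The theta function -/

/-- `exp (2 π i z)` -/
noncomputable def e (z : ℂ) : ℂ := exp (2 * Real.pi * I * z)

theorem e_add (z w : ℂ) : e (z + w) = e z * e w := by
  rw [e, e, e, ← exp_add]; ring_nf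

theorem e_neg (z : ℂ) : e (-z) = (e z)⁻¹ := by
  rw [e, e, ← exp_neg]; ring_nf

theorem e_ne (z : ℂ) : e z ≠ 0 := exp_ne_zero _

theorem e_zero : e 0 = 1 := by simp [e]

theorem e_one : e 1 = 1 := by
  rw [e, mul_one, exp_two_pi_mul_I]

theorem e_diff : Differentiable ℂ e := by
  unfold e; fun_prop

theorem two_pi_ne : (2 * (Real.pi : ℂ) * I) ≠ 0 := two_pi_I_ne_zero

theorem e_eq_one {z : ℂ} : e z = 1 ↔ ∃ k : ℤ, z = k := by
  rw [e, exp_eq_one_iff]
  constructor
  · rintro ⟨k, hk⟩
    exact ⟨k, mul_left_cancel₀ two_pi_ne (by rw [hk]; ring)⟩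
  · rintro ⟨k, hk⟩
    exact ⟨k, by rw [hk]; ring⟩

theorem e_nat (n : ℕ) (z : ℂ) : e (n * z) = e z ^ n := by
  rw [e, e, ← exp_nat_mul]; ring_nf

theorem norm_e (z : ℂ) : ‖e z‖ = Real.exp (-(2 * Real.pi * z.im)) := by
  rw [e, norm_exp]
  congr 1
  simp

/-- the theta function -/
noncomputable def th (τ z : ℂ) : ℂ := P (e τ) (e z) * P (e τ) (e τ * e (-z))

section theta

variable {τ : ℂ} (hτ : 0 < τ.im)

include hτ

theorem norm_q : ‖e τ‖ < 1 := by
  rw [norm_e]
  rw [Real.exp_lt_one_iff]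
  have := mul_pos Real.pi_pos hτ
  nlinarith

theorem th_diff : Differentiable ℂ (th τ) := by
  unfold th
  have h1 := P_diff (norm_q hτ)
  have h2 := e_diff
  exact (h1.comp h2).mul (h1.comp ((h2.comp differentiable_neg).const_mul _))

omit hτ in
theorem th_one (z : ℂ) : th τ (z + 1) = th τ z := by
  unfold th
  rw [e_add, e_one, mul_one, neg_add, e_add, e_neg 1, e_one, inv_one, mul_one]

theorem th_tau (z : ℂ) : th τ (z + τ) = -e (-z) * th τ z := by
  unfold th
  have hx := e_ne z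
  have hq := e_ne τ
  rw [e_add, neg_add, e_add, e_neg, e_neg, P_step (norm_q hτ) (e z)]
  have h1 : e τ * ((e z)⁻¹ * (e τ)⁻¹) = (e z)⁻¹ := by field_simp
  rw [h1, P_step (norm_q hτ) (e z)⁻¹, mul_comm (e z) (e τ)]
  field_simp
  ring

theorem th_zero (z : ℂ) : th τ z = 0 ↔ Cg τ z 0 := by
  unfold th
  rw [mul_eq_zero, P_zero (norm_q hτ), P_zero (norm_q hτ)]
  constructor
  · rintro (⟨n, hn⟩ | ⟨n, hn⟩)
    · rw [← e_nat, ← e_add, e_eq_one] at hn
      obtain ⟨k, hk⟩ := hn
      exact ⟨k, -n, by push_cast; linear_combination hk⟩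
    · rw [← e_nat, ← e_add, ← e_add, e_eq_one] at hn
      obtain ⟨k, hk⟩ := hn
      exact ⟨-k, n + 1, by push_cast; linear_combination -hk⟩
  · rintro ⟨m, n, h⟩
    rw [sub_zero] at h
    rcases le_or_gt n 0 with hn | hn
    · left
      obtain ⟨k, hk⟩ := Int.eq_ofNat_of_zero_le (show 0 ≤ -n by omega)
      refine ⟨k, ?_⟩
      rw [← e_nat, ← e_add, e_eq_one]
      refine ⟨m, ?_⟩
      have hk' : -(n : ℂ) = k := by exact_mod_cast congrArg (Int.cast : ℤ → ℂ) hk
      linear_combination h - τ * hk'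
    · right
      obtain ⟨k, hk⟩ := Int.eq_ofNat_of_zero_le (show 0 ≤ n - 1 by omega)
      refine ⟨k, ?_⟩
      rw [← e_nat, ← e_add, ← e_add, e_eq_one]
      refine ⟨-m, ?_⟩
      have hk' : (n : ℂ) - 1 = k := by exact_mod_cast congrArg (Int.cast : ℤ → ℂ) hk
      push_cast
      linear_combination -h - τ * hk'

theorem th_deriv_zero : deriv (th τ) 0 ≠ 0 := by
  have hP := P_diff (norm_q hτ)
  have he := e_diff
  have h1 : th τ = fun z => (1 - e z) * (P (e τ) (e τ * e z) * P (e τ) (e τ * e (-z))) := by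
    funext z
    rw [th, P_step (norm_q hτ) (e z)]
    ring
  have h2 : HasDerivAt (fun z => 1 - e z) (-(2 * Real.pi * I)) 0 := by
    have h3 : HasDerivAt (fun z : ℂ => 2 * Real.pi * I * z) (2 * Real.pi * I * 1) 0 :=
      (hasDerivAt_id (0 : ℂ)).const_mul _
    have h4 := h3.cexp.const_sub 1
    simpa [e] using h4
  have hG : Differentiable ℂ fun z => P (e τ) (e τ * e z) * P (e τ) (e τ * e (-z)) :=
    (hP.comp (he.const_mul _)).mul (hP.comp ((he.comp differentiable_neg).const_mul _))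
  have h5 := h2.mul (hG 0).hasDerivAt
  have h6 : deriv (th τ) 0 = -(2 * Real.pi * I) * (P (e τ) (e τ) * P (e τ) (e τ)) := by
    rw [h1]
    have h7 := h5.deriv
    simp only [e_zero, neg_zero, mul_one, sub_self, zero_mul, add_zero] at h7
    exact h7
  have h8 : P (e τ) (e τ) ≠ 0 := by
    intro h
    rw [P_zero (norm_q hτ)] at h
    obtain ⟨n, hn⟩ := h
    have h9 : ‖e τ‖ ^ (n + 1) = 1 := by
      rw [← norm_pow, pow_succ, hn, norm_one]
    have h10 := pow_lt_one₀ (norm_nonneg _) (norm_q hτ) (Nat.succ_ne_zero n)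
    simp only [Nat.succ_eq_add_one] at h10
    linarith
  rw [h6]
  exact mul_ne_zero (neg_ne_zero.2 two_pi_ne) (mul_ne_zero h8 h8)

end theta

/-! ### Induction over the lattice -/

theorem lat {τ : ℂ} {p : ℂ → Prop} (h1 : ∀ z, p z ↔ p (z + 1)) (h2 : ∀ z, p z ↔ p (z + τ))
    {z a : ℂ} (h : Cg τ z a) : p z ↔ p a := by
  have key : ∀ (w : ℂ) (_ : ∀ z, p z ↔ p (z + w)) (m : ℤ) (z : ℂ), p z ↔ p (z + m * w) := by
    intro w hw m
    induction m using Int.induction_on with
    | zero => intro z; simp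
    | succ k ih =>
      intro z
      rw [ih z, hw (z + (k : ℤ) * w)]
      push_cast
      ring_nf
    | pred k ih =>
      intro z
      rw [ih z, hw (z + ((-(k : ℤ) - 1 : ℤ) : ℂ) * w)]
      push_cast
      ring_nf
  obtain ⟨m, n, h⟩ := h
  have hz : z = a + m * 1 + n * τ := by linear_combination h
  rw [hz, ← key τ h2 n, ← key 1 h1 m]

theorem Cg.refl' (τ a : ℂ) : Cg τ a a := ⟨0, 0, by simp⟩

theorem th_deriv {τ : ℂ} (hτ : 0 < τ.im) {z : ℂ} (hz : th τ z = 0) : deriv (th τ) z ≠ 0 := by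
  have hd := th_diff hτ
  have key : (th τ z = 0 ∧ deriv (th τ) z ≠ 0) ↔ (th τ 0 = 0 ∧ deriv (th τ) 0 ≠ 0) := by
    refine lat (τ := τ) (p := fun z => th τ z = 0 ∧ deriv (th τ) z ≠ 0) (fun z => ?_) (fun z => ?_)
      ((th_zero hτ z).1 hz)
    · have h1 : deriv (th τ) (z + 1) = deriv (th τ) z := by
        rw [← deriv_comp_add_const]
        congr 1
        funext w
        exact th_one w
      rw [th_one, h1]
    · have h1 : deriv (th τ) (z + τ) = deriv (fun w => -e (-w) * th τ w) z := by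
        rw [← deriv_comp_add_const]
        congr 1
        funext w
        exact th_tau hτ w
      have h2 : Differentiable ℂ fun w => -e (-w) := (e_diff.comp differentiable_neg).neg
      have h3 : deriv (fun w => -e (-w) * th τ w) z =
          deriv (fun w => -e (-w)) z * th τ z + -e (-z) * deriv (th τ) z :=
        ((h2 z).hasDerivAt.mul (hd z).hasDerivAt).deriv
      have h4 := e_ne (-z)
      rw [h1, h3, th_tau hτ]
      constructor
      · rintro ⟨h5, h6⟩
        rw [h5]
        simp [h4, h6]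
      · rintro ⟨h5, h6⟩
        have h7 : th τ z = 0 := by simpa [h4] using h5
        refine ⟨h7, fun h8 => h6 ?_⟩
        rw [h7, h8]
        ring
  exact (key.2 ⟨(th_zero hτ 0).2 (Cg.refl' τ 0), th_deriv_zero hτ⟩).2

/-! ### Entire functions -/

/-- cancellation of a nonzero entire function -/
theorem cancel {u h : ℂ → ℂ} (hu : Differentiable ℂ u) (hh : Continuous h) (hne : ∃ z, u z ≠ 0)
    (H : ∀ z, u z * h z = 0) : ∀ z, h z = 0 := by
  intro z
  by_contra hz
  have h1 : ∀ᶠ w in 𝓝 z, h w ≠ 0 := hh.continuousAt.eventually_ne hz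
  have h2 : u =ᶠ[𝓝 z] fun _ => 0 := by
    filter_upwards [h1] with w hw
    exact (mul_eq_zero.1 (H w)).resolve_right hw
  have h3 : AnalyticOnNhd ℂ u Set.univ := fun w _ => hu.analyticAt w
  have h4 : AnalyticOnNhd ℂ (fun _ : ℂ => (0 : ℂ)) Set.univ := fun w _ => analyticAt_const
  have h5 := h3.eq_of_eventuallyEq h4 h2
  obtain ⟨w, hw⟩ := hne
  exact hw (congrFun h5 w)

/-- division of entire functions by an entire function with simple zeros -/
theorem divide {u f : ℂ → ℂ} (hu : Differentiable ℂ u) (hf : Differentiable ℂ f)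
    (hs : ∀ z, u z = 0 → deriv u z ≠ 0) (hz : ∀ z, u z = 0 → f z = 0) :
    ∃ g : ℂ → ℂ, Differentiable ℂ g ∧ ∀ z, f z = u z * g z := by
  classical
  refine ⟨fun z => if u z = 0 then deriv f z / deriv u z else f z / u z, fun z => ?_, fun z => ?_⟩
  · by_cases h : u z = 0
    · have dsl : ∀ {k : ℂ → ℂ}, Differentiable ℂ k → Differentiable ℂ (dslope k z) := by
        intro k hk
        have h1 := (Complex.differentiableOn_dslope (f := k) (c := z) (s := Set.univ)
          Filter.univ_mem).2 hk.differentiableOn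
        exact differentiableOn_univ.1 h1
      have h2 : dslope u z z ≠ 0 := by rw [dslope_same]; exact hs z h
      have h3 : DifferentiableAt ℂ (fun w => dslope f z w / dslope u z w) z :=
        (dsl hf z).div (dsl hu z) h2
      refine h3.congr_of_eventuallyEq ?_
      have h4 : ∀ᶠ w in 𝓝 z, dslope u z w ≠ 0 := (dsl hu z).continuousAt.eventually_ne h2
      filter_upwards [h4] with w hw
      rcases eq_or_ne w z with rfl | hwz
      · simp [h]
      · have h5 : w - z ≠ 0 := sub_ne_zero.2 hwz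
        rw [dslope_of_ne _ hwz, slope_def_field] at hw
        rw [dslope_of_ne _ hwz, dslope_of_ne _ hwz, slope_def_field, slope_def_field, h, hz z h]
        rw [h, sub_zero] at hw
        have h6 : u w ≠ 0 := fun h7 => hw (by rw [h7, zero_div])
        rw [if_neg h6]
        field_simp
        ring
    · have h1 : DifferentiableAt ℂ (fun w => f w / u w) z := (hf z).div (hu z) h
      refine h1.congr_of_eventuallyEq ?_
      have h4 : ∀ᶠ w in 𝓝 z, u w ≠ 0 := (hu z).continuousAt.eventually_ne h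
      filter_upwards [h4] with w hw
      rw [if_neg hw]
  · by_cases h : u z = 0
    · simp [h, hz z h]
    · simp only [h, if_false]
      field_simp


/-! ### Theta functions with characteristics -/

/-- the theta function with zero `a` -/
noncomputable def u (τ a z : ℂ) : ℂ := th τ (z - a)

section

variable {τ : ℂ} (hτ : 0 < τ.im)

theorem gu_c (a : ℂ) : (gu a).c = -e a := by
  simp [gu, Gam.c, e]

theorem ex_one (z : ℂ) : exp (-(2 * Real.pi * I * ((1 : ℤ) : ℂ) * z)) = e (-z) := by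
  rw [e]; congr 1; push_cast; ring

include hτ

theorem u_mem (a : ℂ) : u τ a ∈ V τ (gu a) := by
  refine ⟨(th_diff hτ).comp (differentiable_id.sub_const a), fun z => ?_, fun z => ?_⟩
  · show th τ (z + 1 - a) = th τ (z - a)
    rw [show z + 1 - a = z - a + 1 by ring, th_one]
  · show th τ (z + τ - a) = _ * th τ (z - a)
    rw [show z + τ - a = z - a + τ by ring, th_tau hτ, gu_c]
    show _ = -e a * exp (-(2 * Real.pi * I * ((1 : ℤ) : ℂ) * z)) * _
    rw [ex_one, show -(z - a) = a + -z by ring, e_add]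
    ring

theorem u_zero (a z : ℂ) : u τ a z = 0 ↔ Cg τ z a := by
  show th τ (z - a) = 0 ↔ _
  rw [th_zero hτ]
  simp [Cg]

theorem u_deriv (a z : ℂ) (h : u τ a z = 0) : deriv (u τ a) z ≠ 0 := by
  have h1 : deriv (u τ a) z = deriv (th τ) (z - a) := by
    show deriv (fun w => th τ (w - a)) z = _
    rw [deriv_comp_sub_const]
  rw [h1]
  exact th_deriv hτ h

theorem u_ne (a : ℂ) : ∃ z, u τ a z ≠ 0 := by
  by_contra h
  push Not at h
  have h1 : u τ a = fun _ => 0 := funext h
  have h2 := u_deriv hτ a a (h a)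
  rw [h1] at h2
  simp at h2

omit hτ in
theorem V_cont {γ : Gam} {f : ℂ → ℂ} (hf : f ∈ V τ γ) : Continuous f := hf.1.continuous

theorem div (a : ℂ) (γ : Gam) (f : ℂ → ℂ) (hf : f ∈ V τ γ) (hfa : f a = 0) :
    ∃ g ∈ V τ (γ - gu a), f = u τ a * g := by
  have hu := u_mem hτ a
  have hz : ∀ z, u τ a z = 0 → f z = 0 := by
    intro z h
    rw [u_zero hτ] at h
    refine (lat (τ := τ) (p := fun z => f z = 0) (fun z => ?_) (fun z => ?_) h).2 hfa
    · rw [hf.2.1]
    · rw [hf.2.2]
      simp [exp_ne_zero, Gam.c_ne]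
  obtain ⟨g, hg, hfg⟩ := divide hu.1 hf.1 (u_deriv hτ a) hz
  refine ⟨g, ⟨hg, ?_, ?_⟩, funext hfg⟩
  · have h1 := cancel hu.1 (h := fun z => g (z + 1) - g z)
      ((hg.continuous.comp (continuous_id.add continuous_const)).sub hg.continuous) (u_ne hτ a) (by
        intro z
        have h2 := hf.2.1 z
        rw [hfg, hfg, hu.2.1] at h2
        rw [mul_sub, h2, sub_self])
    intro z
    exact sub_eq_zero.1 (h1 z)
  · set E : ℂ → ℂ := fun z => exp (-(2 * Real.pi * I * (gu a).1 * z)) with hE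
    set F : ℂ → ℂ := fun z => exp (-(2 * Real.pi * I * γ.1 * z)) with hF
    have h1 := cancel hu.1 (h := fun z => (gu a).c * E z * g (z + τ) - γ.c * F z * g z)
      (by
        have h3 : Continuous g := hg.continuous
        rw [hE, hF]
        fun_prop) (u_ne hτ a) (by
        intro z
        have h2 := hf.2.2 z
        rw [hfg, hfg, hu.2.2] at h2
        rw [hE, hF]
        linear_combination h2)
    intro z
    have h2 := h1 z
    have h3 : exp (-(2 * Real.pi * I * ((γ - gu a).1 : ℤ) * z)) * E z = F z := by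
      rw [hE, hF]
      simp only [Prod.fst_sub, Int.cast_sub]
      rw [← exp_add]
      congr 1
      ring
    have h4 : (γ - gu a).c * (gu a).c = γ.c := by
      rw [Gam.c_sub, div_mul_cancel₀ _ (Gam.c_ne _)]
    have h5 : (gu a).c * E z ≠ 0 := mul_ne_zero (Gam.c_ne _) (exp_ne_zero _)
    apply mul_left_cancel₀ h5
    calc (gu a).c * E z * g (z + τ) = γ.c * F z * g z := sub_eq_zero.1 h2
      _ = _ := by rw [← h3, ← h4]; ring

theorem deg0 (γ : Gam) (f : ℂ → ℂ) (hf : f ∈ V τ γ) (h0 : γ.1 = 0) (hne : f ≠ 0) :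
    ∃ (k : ℤ) (r : ℂ), r ≠ 0 ∧ ∀ z, f z = r * exp (2 * Real.pi * I * k * z) := by
  set t : ℝ := Real.log ‖γ.c‖ / (2 * Real.pi * τ.im) with ht
  have hc : 0 < ‖γ.c‖ := norm_pos_iff.2 (Gam.c_ne γ)
  have hpi : 0 < 2 * Real.pi * τ.im := by positivity
  have ht1 : Real.exp (-(2 * Real.pi * t * τ.im)) * ‖γ.c‖ = 1 := by
    have h1 : -(2 * Real.pi * t * τ.im) = -Real.log ‖γ.c‖ := by
      rw [ht]; field_simp
    rw [h1, Real.exp_neg, Real.exp_log hc, inv_mul_cancel₀ hc.ne']
  set h : ℂ → ℂ := fun z => exp (2 * Real.pi * I * t * z) * f z with hh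
  have hn : ∀ z, ‖h z‖ = Real.exp (-(2 * Real.pi * t * z.im)) * ‖f z‖ := by
    intro z
    rw [hh]
    simp only [norm_mul, norm_exp]
    congr 2
    simp
  have hd : Differentiable ℂ h := by
    have := hf.1
    rw [hh]
    fun_prop
  have h1 : ∀ z, ‖h (z + 1)‖ = ‖h z‖ := by
    intro z
    rw [hn, hn, hf.2.1]
    simp
  have h2 : ∀ z, ‖h (z + τ)‖ = ‖h z‖ := by
    intro z
    rw [hn, hn, hf.2.2, h0]
    simp only [Int.cast_zero, mul_zero, zero_mul, neg_zero, exp_zero, mul_one, norm_mul,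
      add_im]
    rw [show -(2 * Real.pi * t * (z.im + τ.im)) = -(2 * Real.pi * t * z.im) +
      -(2 * Real.pi * t * τ.im) by ring, Real.exp_add]
    linear_combination (Real.exp (-(2 * Real.pi * t * z.im)) * ‖f z‖) * ht1
  have hb : Bornology.IsBounded (Set.range h) := by
    have hK : IsCompact ((fun p : ℝ × ℝ => (p.1 : ℂ) + p.2 * τ) ''
        (Set.Icc 0 1 ×ˢ Set.Icc 0 1)) :=
      (isCompact_Icc.prod isCompact_Icc).image (by fun_prop)
    obtain ⟨B, hB⟩ := hK.exists_bound_of_continuousOn hd.continuous.continuousOn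
    rw [isBounded_iff_forall_norm_le]
    refine ⟨B, ?_⟩
    rintro _ ⟨z, rfl⟩
    set y : ℝ := z.im / τ.im with hy
    set x : ℝ := z.re - y * τ.re with hx
    have hz : z = x + y * τ := by
      apply Complex.ext
      · simp [hx]
      · simp [hy, hτ.ne']
    have hw : Cg τ z ((Int.fract x : ℝ) + (Int.fract y : ℝ) * τ) := by
      refine ⟨⌊x⌋, ⌊y⌋, ?_⟩
      have e1 : (x : ℂ) = (⌊x⌋ : ℂ) + (Int.fract x : ℝ) := by
        have := Int.floor_add_fract x
        exact_mod_cast this.symm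
      have e2 : (y : ℂ) = (⌊y⌋ : ℂ) + (Int.fract y : ℝ) := by
        have := Int.floor_add_fract y
        exact_mod_cast this.symm
      rw [hz]
      linear_combination e1 + τ * e2
    refine (lat (τ := τ) (p := fun z => ‖h z‖ ≤ B) (fun z => by rw [h1]) (fun z => by rw [h2])
      hw).2 (hB _ ⟨(Int.fract x, Int.fract y), ⟨⟨Int.fract_nonneg _, (Int.fract_lt_one _).le⟩,
        ⟨Int.fract_nonneg _, (Int.fract_lt_one _).le⟩⟩, rfl⟩)
  have hconst : ∀ z, h z = h 0 := fun z => hd.apply_eq_apply_of_bounded hb z 0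
  have hfz : ∀ z, f z = h 0 * exp (-(2 * Real.pi * I * t * z)) := by
    intro z
    rw [← hconst z, hh]
    simp only
    rw [exp_neg]
    field_simp
  have hr : h 0 ≠ 0 := by
    intro h3
    apply hne
    funext z
    rw [hfz z, h3, zero_mul]
    rfl
  have h4 : e (-t) = 1 := by
    have h5 := hf.2.1 0
    rw [hfz, hfz] at h5
    have h6 := mul_left_cancel₀ hr h5
    simp only [mul_zero, neg_zero, exp_zero, zero_add, mul_one] at h6
    rw [e, ← h6]
    congr 1
    ring
  obtain ⟨k, hk⟩ := e_eq_one.1 h4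
  refine ⟨k, h 0, hr, fun z => ?_⟩
  rw [hfz z]
  congr 2
  linear_combination (2 * Real.pi * I * z) * hk

omit hτ in
theorem V_pow {γ : Gam} {f : ℂ → ℂ} (hf : f ∈ V τ γ) (k : ℕ) : f ^ k ∈ V τ (k • γ) := by
  induction k with
  | zero => simpa using (V_one (τ := τ))
  | succ k ih => rw [pow_succ, succ_nsmul]; exact V_mul ih hf

theorem neg (γ : Gam) (f : ℂ → ℂ) (hf : f ∈ V τ γ) (h0 : γ.1 < 0) : f = 0 := by
  obtain ⟨k, hk⟩ := Int.eq_ofNat_of_zero_le (show 0 ≤ -γ.1 by omega)
  have h1 := V_mul hf (V_pow (u_mem hτ 0) k)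
  have h2 : (γ + k • gu 0).1 = 0 := by
    have h3 : (gu 0).1 = 1 := rfl
    show γ.1 + k • (gu 0).1 = 0
    rw [h3, nsmul_one]
    omega
  have h3 : f * u τ 0 ^ k = 0 := by
    by_contra h4
    obtain ⟨l, r, hr, h5⟩ := deg0 hτ _ _ h1 h2 h4
    have h6 := h5 0
    have h7 : u τ 0 0 = 0 := (u_zero hτ 0 0).2 (Cg.refl' τ 0)
    rw [Pi.mul_apply, Pi.pow_apply, h7, zero_pow (by omega), mul_zero] at h6
    simp only [mul_zero, exp_zero, mul_one] at h6
    exact hr h6.symm
  have h4 : ∃ z, (u τ 0 ^ k) z ≠ 0 := by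
    obtain ⟨z, hz⟩ := u_ne hτ 0
    exact ⟨z, by rw [Pi.pow_apply]; exact pow_ne_zero _ hz⟩
  have h5 := cancel (V_pow (u_mem hτ 0) k).1 hf.1.continuous h4 (fun z => by
    have h6 := congrFun h3 z
    rw [Pi.mul_apply] at h6
    rw [mul_comm]
    exact h6)
  exact funext h5

theorem pos (γ : Gam) (f : ℂ → ℂ) (hf : f ∈ V τ γ) (h0 : 0 < γ.1) : ∃ a, f a = 0 := by
  by_contra hc
  push Not at hc
  have h1 : (fun z => (f z)⁻¹) ∈ V τ (-γ) := by
    refine ⟨fun z => (hf.1 z).inv (hc z), fun z => ?_, fun z => ?_⟩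
    · show (f (z + 1))⁻¹ = (f z)⁻¹
      rw [hf.2.1]
    · show (f (z + τ))⁻¹ = _ * (f z)⁻¹
      rw [hf.2.2, mul_inv, mul_inv, ← exp_neg]
      have h2 : (-γ).c = (γ.c)⁻¹ := by
        have h3 := Gam.c_sub 0 γ
        rw [zero_sub, Gam.c_zero, one_div] at h3
        exact h3
      rw [h2]
      simp only [Prod.fst_neg, Int.cast_neg]
      ring_nf
  have h2 := neg hτ _ _ h1 (by show -γ.1 < 0; omega)
  have h3 := congrFun h2 0
  exact inv_ne_zero (hc 0) h3

theorem fin0 (γ : Gam) (h0 : γ.1 = 0) : Module.Finite ℂ (V τ γ) := by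
  by_cases hb : ∃ f ∈ V τ γ, f ≠ 0
  · obtain ⟨f, hf, hne⟩ := hb
    obtain ⟨k, r, hr, hk⟩ := deg0 hτ γ f hf h0 hne
    have hle : V τ γ ≤ Submodule.span ℂ {f} := by
      intro g hg
      by_cases hg0 : g = 0
      · rw [hg0]; exact Submodule.zero_mem _
      obtain ⟨l, s, hs, hl⟩ := deg0 hτ γ g hg h0 hg0
      have hc : ∀ {f : ℂ → ℂ} (_ : f ∈ V τ γ) (k : ℤ) (r : ℂ) (_ : r ≠ 0)
          (_ : ∀ z, f z = r * exp (2 * Real.pi * I * k * z)),
          γ.c = exp (2 * Real.pi * I * k * τ) := by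
        intro f hf k r hr hk
        have h1 := hf.2.2 0
        rw [hk, hk, h0] at h1
        simp only [Int.cast_zero, mul_zero, neg_zero, exp_zero, mul_one, zero_add] at h1
        exact (mul_right_cancel₀ hr (by rw [← h1]; ring)).symm
      have h1 := hc hf k r hr hk
      have h2 := hc hg l s hs hl
      have h3 : k = l := by
        have h4 : ‖exp (2 * Real.pi * I * k * τ)‖ = ‖exp (2 * Real.pi * I * l * τ)‖ := by
          rw [← h1, ← h2]
        rw [norm_exp, norm_exp] at h4
        have h5 := Real.exp_injective h4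
        simp at h5
        rcases h5 with h5 | h5
        · exact_mod_cast h5
        · exact absurd h5 hτ.ne'
      rw [Submodule.mem_span_singleton]
      refine ⟨s / r, funext fun z => ?_⟩
      rw [Pi.smul_apply, hk, hl, h3, smul_eq_mul]
      field_simp
    exact Submodule.finiteDimensional_of_le hle
  · have h1 : V τ γ = ⊥ := by
      rw [eq_bot_iff]
      intro f hf
      rw [Submodule.mem_bot]
      by_contra h2
      exact hb ⟨f, hf, h2⟩
    rw [h1]
    infer_instance

theorem fin_nat (n : ℕ) : ∀ γ : Gam, γ.1 = n → Module.Finite ℂ (V τ γ) := by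
  induction n with
  | zero => intro γ h; exact fin0 hτ γ (by exact_mod_cast h)
  | succ n ih =>
    intro γ h
    have h1 : (γ - gu 0).1 = n := by
      show γ.1 - 1 = n
      push_cast at h
      omega
    have hf := ih _ h1
    set M := (V τ (γ - gu 0)).map (LinearMap.mulLeft ℂ (u τ 0)) with hM
    have : Module.Finite ℂ M := Module.Finite.map _ _
    have hdiv : ∀ f ∈ V τ γ, f 0 = 0 → f ∈ M := by
      intro f hf h2
      obtain ⟨g, hg, h3⟩ := div hτ 0 γ f hf h2
      exact ⟨g, hg, h3.symm⟩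
    by_cases hb : ∃ f ∈ V τ γ, f 0 ≠ 0
    · obtain ⟨f, hf, hne⟩ := hb
      have hle : V τ γ ≤ Submodule.span ℂ {f} ⊔ M := by
        intro g hg
        have h2 : g - (g 0 / f 0) • f ∈ M := by
          refine hdiv _ (Submodule.sub_mem _ hg (Submodule.smul_mem _ _ hf)) ?_
          simp [hne]
        have h3 := Submodule.add_mem_sup (Submodule.smul_mem (Submodule.span ℂ {f}) (g 0 / f 0)
          (Submodule.mem_span_singleton_self f)) h2
        rwa [add_sub_cancel] at h3
      exact Submodule.finiteDimensional_of_le hle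
    · push Not at hb
      exact Submodule.finiteDimensional_of_le (fun f hf => hdiv f hf (hb f hf) : V τ γ ≤ M)

theorem fin' (γ : Gam) : Module.Finite ℂ (V τ γ) := by
  rcases lt_or_ge γ.1 0 with h | h
  · have h1 : V τ γ = ⊥ := by
      rw [eq_bot_iff]
      intro f hf
      rw [Submodule.mem_bot]
      exact neg hτ γ f hf h
    rw [h1]
    infer_instance
  · obtain ⟨k, hk⟩ := Int.eq_ofNat_of_zero_le h
    exact fin_nat hτ k γ hk

end

theorem p_TH : S_TH := fun τ hτ => ⟨u τ, u_mem hτ, fun a z => u_zero hτ a z, div hτ, neg hτ,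
  deg0 hτ, pos hτ, fin' hτ⟩

end Run7.h299.BETH
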