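import Pool.Agent.Run7.h354.BE.Stm2
import Pool.Agent.Run7.h299.BE_TH
import Pool.Agent.Run7.h299.BE_SEC
import Pool.Agent.Run7.h299.BE_KUN

/-!
# SEQ: the basic exact sequences of sheaves
-/

set_option autoImplicit false
set_option linter.unusedSectionVars false
set_option linter.unusedVariables false

open CategoryTheory CategoryTheory.Limits Complex ZeroObject

namespace Run7.h299.BESEQ

open Run7.h354.BE

variable {τ τ' : ℂ} {s : Bool}

theorem epi_sh {M N : GM τ τ' s} (φ : M ⟶ N)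
    (h : ∀ (a : Ob τ τ' s) (y : N.obj.obj a) (z w : ℂ), ∃ (γ δ : Gam) (g h : ℂ → ℂ)
      (hg : g ∈ V τ γ) (hh : h ∈ V τ' δ), g z ≠ 0 ∧ h w ≠ 0 ∧
      ∃ x, φ.hom.app _ x = N.obj.map (mulP a hg hh) y) : Epi ((sh τ τ' s).map φ) := by
  have h0 : (sh τ τ' s).map (cokernel.π φ) = 0 := by
    rw [sh_map_eq_zero]
    intro a y z w
    obtain ⟨γ, δ, g, h, hg, hh, h1, h2, x, hx⟩ := h a y z w
    refine ⟨γ, δ, g, h, hg, hh, h1, h2, ?_⟩
    rw [← nat_apply, ← hx]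
    have h3 : φ ≫ cokernel.π φ = 0 := cokernel.condition φ
    have h4 : (φ ≫ cokernel.π φ).hom.app _ x = 0 := by rw [h3]; rfl
    exact h4
  rw [Preadditive.epi_iff_isZero_cokernel]
  have h1 : IsZero ((sh τ τ' s).obj (cokernel φ)) := by
    rw [IsZero.iff_id_eq_zero]
    have h2 : Epi ((sh τ τ' s).map (cokernel.π φ)) := inferInstance
    rw [← cancel_epi ((sh τ τ' s).map (cokernel.π φ)), h0, zero_comp, zero_comp]
  exact h1.of_iso (PreservesCokernel.iso (sh τ τ' s) φ).symm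

theorem ses {M N P : GM τ τ' s} (φ : M ⟶ N) (ψ : N ⟶ P)
    (hφ : ∀ a (x : M.obj.obj a), φ.hom.app a x = 0 → x = 0)
    (h0 : ∀ a (x : M.obj.obj a), ψ.hom.app a (φ.hom.app a x) = 0)
    (h1 : ∀ a (x : N.obj.obj a), ψ.hom.app a x = 0 → ∃ y, φ.hom.app a y = x)
    (h : ∀ (a : Ob τ τ' s) (y : P.obj.obj a) (z w : ℂ), ∃ (γ δ : Gam) (g h : ℂ → ℂ)
      (hg : g ∈ V τ γ) (hh : h ∈ V τ' δ), g z ≠ 0 ∧ h w ≠ 0 ∧
      ∃ x, ψ.hom.app _ x = P.obj.map (mulP a hg hh) y) :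
    ∃ e, (ShortComplex.mk ((sh τ τ' s).map φ) ((sh τ τ' s).map ψ) e).ShortExact := by
  have e0 : φ ≫ ψ = 0 := by
    refine ObjectProperty.hom_ext _ ?_
    ext a x
    exact h0 a x
  have hS : (ShortComplex.mk φ ψ e0).Exact := by
    rw [gm_exact_iff]
    exact h1
  have hm : Mono φ := by
    have : Mono ((lin τ τ' s).ι.map φ) := by
      show Mono φ.hom
      rw [mono_iff]
      intro m
      rw [injective_iff_map_eq_zero]
      exact hφ m
    exact (lin τ τ' s).ι.mono_of_mono_map this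
  refine ⟨by rw [← Functor.map_comp, e0, Functor.map_zero], ?_⟩
  have := epi_sh ψ h
  exact { exact := hS.map (sh τ τ' s) }


variable (hτ : 0 < τ.im) (hτ' : 0 < τ'.im) {u v : ℂ → ℂ → ℂ} (hu : TH τ u) (hv : TH τ' v)

include hτ hu in
theorem u_ne (z : ℂ) : ∃ z', u z z' ≠ 0 := by
  obtain ⟨a, h, -⟩ := BESEC.choose_zero hτ z 0
  refine ⟨a, fun h0 => h ?_⟩
  obtain ⟨m, n, e⟩ := (hu.zero z a).1 h0
  exact ⟨-m, -n, by push_cast; linear_combination -e⟩

include hτ hu in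
/-- Two sections with the same large degree shift. -/
theorem big (γ : Gam) (z z' : ℂ) : ∃ (δ : Gam) (g G : ℂ → ℂ), g ∈ V τ δ ∧ G ∈ V τ (γ + δ) ∧
    g z ≠ 0 ∧ G z' ≠ 0 := by
  have hs := (BESEC.p_SEC τ hτ u hu).1
  have h1 : (2 : ℤ) ≤ 2 + |γ.1| := by
    have := abs_nonneg γ.1
    linarith
  have h2 : (2 : ℤ) ≤ γ.1 + (2 + |γ.1|) := by
    have := neg_abs_le γ.1
    linarith
  obtain ⟨g, hg, hgz⟩ := hs (2 + |γ.1|, 0) z h1
  obtain ⟨G, hG, hGz⟩ := hs (γ + (2 + |γ.1|, 0)) z' h2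
  exact ⟨_, g, G, hg, hG, hgz, hGz⟩

theorem seq1 (a : Gam2) (z : ℂ) (h : pr (u z) 1 ∈ W τ τ' (a + (gu z, 0) - a))
    (hτ : 0 < τ.im) (hτ' : 0 < τ'.im) (hu : TH τ u) (hv : TH τ' v) :
    ∃ e, (ShortComplex.mk ((sh τ τ' false).map (fmm (fW τ τ') (a := a) (b := a + (gu z, 0))
    (pr (u z) 1) h)) ((sh τ τ' false).map (rWL z a)) e).ShortExact := by
  refine ses _ _ ?_ ?_ ?_ ?_
  · intro c x hx
    have hx' : ∀ p, pr (u z) 1 p * (x : W τ τ' (c.deg - (a + (gu z, 0)))).1 p = 0 :=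
      fun p => congrFun (congrArg Subtype.val hx) p
    refine Subtype.ext (funext fun p => ?_)
    have hc := (x : W τ τ' (c.deg - (a + (gu z, 0)))).2.1
    refine BETH.cancel (hu.mem z).1 (h := fun t => (x : W τ τ' (c.deg - (a + (gu z, 0)))).1 (t, p.2))
      (hc.continuous.comp (by fun_prop)) (u_ne hτ hu z) (fun t => ?_) p.1
    have := hx' (t, p.2)
    simpa [pr] using this
  · intro c x
    refine Subtype.ext (funext fun t => ?_)
    show (u z z * 1) * (x : W τ τ' (c.deg - (a + (gu z, 0)))).1 (z, t) = 0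
    rw [(hu.zero z z).2 ⟨0, 0, by simp⟩]
    ring
  · intro c x hx
    have hx' : ∀ w, (x : W τ τ' (c.deg - a)).1 (z, w) = 0 :=
      fun w => congrFun (congrArg Subtype.val hx) w
    obtain ⟨k, hk, e⟩ := ((BEKUN.p_KUN τ τ' hτ hτ' u v hu hv (c.deg - a)).2 _
      (x : W τ τ' (c.deg - a)).2).2.1 z hx'
    have hk' : k ∈ W τ τ' (c.deg - (a + (gu z, 0))) := by rwa [← sub_sub]
    exact ⟨(⟨k, hk'⟩ : W τ τ' (c.deg - (a + (gu z, 0)))), Subtype.ext e.symm⟩
  · intro c y z₀ w₀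
    obtain ⟨δ, g, G, hg, hG, h1, h2⟩ := big hτ hu (c.deg - a).1 z₀ z
    have hm : pr ((g z / G z) • G) (y : V τ' (c.deg - a).2).1 ∈ W τ τ' (c.deg + (δ, 0) - a) := by
      have e : c.deg + (δ, 0) - a = ((c.deg - a).1 + δ, (c.deg - a).2) := by
        rw [show c.deg + (δ, 0) - a = (c.deg - a) + (δ, 0) by abel]
        exact Prod.ext rfl (add_zero _)
      rw [e]
      exact W_pr (Submodule.smul_mem _ _ hG) (y : V τ' (c.deg - a).2).2
    refine ⟨δ, 0, g, 1, hg, V_one, h1, one_ne_zero, (⟨_, hm⟩ : W τ τ' (c.deg + (δ, 0) - a)), ?_⟩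
    refine Subtype.ext (funext fun t => ?_)
    show ((g z / G z) * G z) * (y : V τ' (c.deg - a).2).1 t =
      (g z * 1) * (y : V τ' (c.deg - a).2).1 t
    rw [div_mul_cancel₀ _ h2, mul_one]

theorem seq2 (a : Gam2) (w : ℂ) (h : pr 1 (v w) ∈ W τ τ' (a + (0, gu w) - a))
    (hτ : 0 < τ.im) (hτ' : 0 < τ'.im) (hu : TH τ u) (hv : TH τ' v) :
    ∃ e, (ShortComplex.mk ((sh τ τ' false).map (fmm (fW τ τ') (a := a) (b := a + (0, gu w))
    (pr 1 (v w)) h)) ((sh τ τ' false).map (rWL' w a)) e).ShortExact := by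
  refine ses _ _ ?_ ?_ ?_ ?_
  · intro c x hx
    have hx' : ∀ p, pr 1 (v w) p * (x : W τ τ' (c.deg - (a + (0, gu w)))).1 p = 0 :=
      fun p => congrFun (congrArg Subtype.val hx) p
    refine Subtype.ext (funext fun p => ?_)
    have hc := (x : W τ τ' (c.deg - (a + (0, gu w)))).2.1
    refine BETH.cancel (hv.mem w).1 (h := fun t => (x : W τ τ' (c.deg - (a + (0, gu w)))).1 (p.1, t))
      (hc.continuous.comp (by fun_prop)) (u_ne hτ' hv w) (fun t => ?_) p.2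
    have := hx' (p.1, t)
    simpa [pr] using this
  · intro c x
    refine Subtype.ext (funext fun t => ?_)
    show (1 * v w w) * (x : W τ τ' (c.deg - (a + (0, gu w)))).1 (t, w) = 0
    rw [(hv.zero w w).2 ⟨0, 0, by simp⟩]
    ring
  · intro c x hx
    have hx' : ∀ z, (x : W τ τ' (c.deg - a)).1 (z, w) = 0 :=
      fun z => congrFun (congrArg Subtype.val hx) z
    obtain ⟨k, hk, e⟩ := ((BEKUN.p_KUN τ τ' hτ hτ' u v hu hv (c.deg - a)).2 _
      (x : W τ τ' (c.deg - a)).2).2.2.1 w hx'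
    have hk' : k ∈ W τ τ' (c.deg - (a + (0, gu w))) := by rwa [← sub_sub]
    exact ⟨(⟨k, hk'⟩ : W τ τ' (c.deg - (a + (0, gu w)))), Subtype.ext e.symm⟩
  · intro c y z₀ w₀
    obtain ⟨δ, g, G, hg, hG, h1, h2⟩ := big hτ' hv (c.deg - a).2 w₀ w
    have hm : pr (y : V τ (c.deg - a).1).1 ((g w / G w) • G) ∈ W τ τ' (c.deg + (0, δ) - a) := by
      have e : c.deg + (0, δ) - a = ((c.deg - a).1, (c.deg - a).2 + δ) := by
        rw [show c.deg + (0, δ) - a = (c.deg - a) + (0, δ) by abel]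
        exact Prod.ext (add_zero _) rfl
      rw [e]
      exact W_pr (y : V τ (c.deg - a).1).2 (Submodule.smul_mem _ _ hG)
    refine ⟨0, δ, 1, g, V_one, hg, one_ne_zero, h1, (⟨_, hm⟩ : W τ τ' (c.deg + (0, δ) - a)), ?_⟩
    refine Subtype.ext (funext fun t => ?_)
    show (y : V τ (c.deg - a).1).1 t * ((g w / G w) * G w) =
      (1 * g w) * (y : V τ (c.deg - a).1).1 t
    rw [div_mul_cancel₀ _ h2, one_mul, mul_comm]

theorem seq3 (a : Gam2) (z w : ℂ) (h : pr 1 (v w) ∈ W τ τ' (a + (0, gu w) - a))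
    (hτ : 0 < τ.im) (hτ' : 0 < τ'.im) (hu : TH τ u) (hv : TH τ' v) :
    ∃ e, (ShortComplex.mk ((sh τ τ' false).map (fmm (fL τ τ' z) (a := a) (b := a + (0, gu w))
    (pr 1 (v w)) h)) ((sh τ τ' false).map (rLP z w a)) e).ShortExact := by
  refine ses _ _ ?_ ?_ ?_ ?_
  · intro c x hx
    have hx' : ∀ t, (1 * v w t) * (x : (fL τ τ' z).U (c.deg - (a + (0, gu w)))).1 t = 0 :=
      fun p => congrFun (congrArg Subtype.val hx) p
    have hd : (x : (fL τ τ' z).U (c.deg - (a + (0, gu w)))).1 ∈ V τ' (c.deg - (a + (0, gu w))).2 :=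
      (x : (fL τ τ' z).U (c.deg - (a + (0, gu w)))).2
    refine Subtype.ext (funext fun t => ?_)
    refine BETH.cancel (hv.mem w).1 (h := (x : (fL τ τ' z).U (c.deg - (a + (0, gu w)))).1)
      hd.1.continuous (u_ne hτ' hv w) (fun t => ?_) t
    have := hx' t
    rwa [one_mul] at this
  · intro c x
    refine Subtype.ext (funext fun t => ?_)
    show (1 * v w w) * (x : (fL τ τ' z).U (c.deg - (a + (0, gu w)))).1 w = 0
    rw [(hv.zero w w).2 ⟨0, 0, by simp⟩]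
    ring
  · intro c x hx
    have hx' : (x : (fL τ τ' z).U (c.deg - a)).1 w = 0 := congrFun (congrArg Subtype.val hx) ()
    obtain ⟨k, hk, e⟩ := hv.div w _ _ (x : (fL τ τ' z).U (c.deg - a)).2 hx'
    have hk' : k ∈ V τ' (c.deg - (a + (0, gu w))).2 := by
      rw [← sub_sub]
      exact hk
    refine ⟨(⟨k, hk'⟩ : (fL τ τ' z).U (c.deg - (a + (0, gu w)))), Subtype.ext (funext fun t => ?_)⟩
    show (1 * v w t) * k t = (x : (fL τ τ' z).U (c.deg - a)).1 t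
    rw [e, Pi.mul_apply, one_mul]
  · intro c y z₀ w₀
    obtain ⟨δ, g, G, hg, hG, h1, h2⟩ := big hτ' hv (c.deg - a).2 w₀ w
    have hm : ((g w * (y : (fP τ τ' (z, w)).U (c.deg - a)).1 ()) / G w) • G ∈
        V τ' (c.deg + (0, δ) - a).2 := by
      have e : (c.deg + (0, δ) - a).2 = (c.deg - a).2 + δ := by
        rw [show c.deg + (0, δ) - a = (c.deg - a) + (0, δ) by abel]
        rfl
      rw [e]
      exact Submodule.smul_mem _ _ hG
    refine ⟨0, δ, 1, g, V_one, hg, one_ne_zero, h1,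
      (⟨_, hm⟩ : (fL τ τ' z).U (c.deg + (0, δ) - a)), ?_⟩
    refine Subtype.ext (funext fun t => ?_)
    show ((g w * (y : (fP τ τ' (z, w)).U (c.deg - a)).1 ()) / G w) * G w =
      (1 * g w) * (y : (fP τ τ' (z, w)).U (c.deg - a)).1 ()
    rw [div_mul_cancel₀ _ h2, one_mul]

theorem seq4 (a : Gam2) (z w : ℂ) (h : pr (u z) 1 ∈ W τ τ' (a + (gu z, 0) - a))
    (hτ : 0 < τ.im) (hτ' : 0 < τ'.im) (hu : TH τ u) (hv : TH τ' v) :
    ∃ e, (ShortComplex.mk ((sh τ τ' false).map (fmm (fL' τ τ' w) (a := a) (b := a + (gu z, 0))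
    (pr (u z) 1) h)) ((sh τ τ' false).map (rLP' z w a)) e).ShortExact := by
  refine ses _ _ ?_ ?_ ?_ ?_
  · intro c x hx
    have hx' : ∀ t, (u z t * 1) * (x : (fL' τ τ' w).U (c.deg - (a + (gu z, 0)))).1 t = 0 :=
      fun p => congrFun (congrArg Subtype.val hx) p
    have hd : (x : (fL' τ τ' w).U (c.deg - (a + (gu z, 0)))).1 ∈ V τ (c.deg - (a + (gu z, 0))).1 :=
      (x : (fL' τ τ' w).U (c.deg - (a + (gu z, 0)))).2
    refine Subtype.ext (funext fun t => ?_)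
    refine BETH.cancel (hu.mem z).1 (h := (x : (fL' τ τ' w).U (c.deg - (a + (gu z, 0)))).1)
      hd.1.continuous (u_ne hτ hu z) (fun t => ?_) t
    have := hx' t
    rwa [mul_one] at this
  · intro c x
    refine Subtype.ext (funext fun t => ?_)
    show (u z z * 1) * (x : (fL' τ τ' w).U (c.deg - (a + (gu z, 0)))).1 z = 0
    rw [(hu.zero z z).2 ⟨0, 0, by simp⟩]
    ring
  · intro c x hx
    have hx' : (x : (fL' τ τ' w).U (c.deg - a)).1 z = 0 := congrFun (congrArg Subtype.val hx) ()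
    obtain ⟨k, hk, e⟩ := hu.div z _ _ (x : (fL' τ τ' w).U (c.deg - a)).2 hx'
    have hk' : k ∈ V τ (c.deg - (a + (gu z, 0))).1 := by
      rw [← sub_sub]
      exact hk
    refine ⟨(⟨k, hk'⟩ : (fL' τ τ' w).U (c.deg - (a + (gu z, 0)))), Subtype.ext (funext fun t => ?_)⟩
    show (u z t * 1) * k t = (x : (fL' τ τ' w).U (c.deg - a)).1 t
    rw [e, Pi.mul_apply, mul_one]
  · intro c y z₀ w₀
    obtain ⟨δ, g, G, hg, hG, h1, h2⟩ := big hτ hu (c.deg - a).1 z₀ z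
    have hm : ((g z * (y : (fP τ τ' (z, w)).U (c.deg - a)).1 ()) / G z) • G ∈
        V τ (c.deg + (δ, 0) - a).1 := by
      have e : (c.deg + (δ, 0) - a).1 = (c.deg - a).1 + δ := by
        rw [show c.deg + (δ, 0) - a = (c.deg - a) + (δ, 0) by abel]
        rfl
      rw [e]
      exact Submodule.smul_mem _ _ hG
    refine ⟨δ, 0, g, 1, hg, V_one, h1, one_ne_zero,
      (⟨_, hm⟩ : (fL' τ τ' w).U (c.deg + (δ, 0) - a)), ?_⟩
    refine Subtype.ext (funext fun t => ?_)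
    show ((g z * (y : (fP τ τ' (z, w)).U (c.deg - a)).1 ()) / G z) * G z =
      (g z * 1) * (y : (fP τ τ' (z, w)).U (c.deg - a)).1 ()
    rw [div_mul_cancel₀ _ h2, mul_one]

theorem p_SEQ : S_SEQ := by
  intro τ τ' hτ hτ' u v hu hv a z w
  exact ⟨fun h => seq1 a z h hτ hτ' hu hv, fun h => seq2 a w h hτ hτ' hu hv,
    fun h => seq3 a z w h hτ hτ' hu hv, fun h => seq4 a z w h hτ hτ' hu hv⟩

end Run7.h299.BESEQ
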