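import Pool.Agent.Run7.h354.BE.Stm2
import Pool.Agent.Run7.h299.BE_SEQ

/-!
# DU: sheaves supported at a point
-/

set_option autoImplicit false
set_option linter.unusedSectionVars false
set_option linter.unusedVariables false

open CategoryTheory CategoryTheory.Limits Complex ZeroObject

namespace Run7.h299.BEDU

open Run7.h354.BE

variable {τ τ' : ℂ}

/-- The zeros of theta functions are periodic. -/
theorem V_per {γ : Gam} {g : ℂ → ℂ} (hg : g ∈ V τ γ) {z a : ℂ} (h : Cg τ z a) :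
    g z = 0 ↔ g a = 0 := by
  refine BETH.lat (p := fun z => g z = 0) (fun z => ?_) (fun z => ?_) h
  · rw [hg.2.1]
  · rw [hg.2.2, mul_eq_zero]
    exact ⟨Or.inr, fun h => h.resolve_left (mul_ne_zero γ.c_ne (exp_ne_zero _))⟩

theorem to_mul {a b : Ob τ τ' false} (φ : a ⟶ b) : φ = mul (φ : Mor a b).f (f_mem φ) :=
  Mor.ext (e_false φ) rfl

section

variable (M : Ob τ τ' false ⥤ ModuleCat.{0} ℂ) (z w : ℂ)

/-- Elements which are zero near the point. -/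
def XT {a : Ob τ τ' false} (m : M.obj a) : Prop :=
  ∃ (γ δ : Gam) (g h : ℂ → ℂ) (hg : g ∈ V τ γ) (hh : h ∈ V τ' δ), g z ≠ 0 ∧ h w ≠ 0 ∧
    M.map (mulP a hg hh) m = 0

variable {M z w}

theorem mulP_mulP (a : Ob τ τ' false) {γ δ γ' δ' : Gam} {g h g' h' : ℂ → ℂ} (hg : g ∈ V τ γ)
    (hh : h ∈ V τ' δ) (hg' : g' ∈ V τ γ') (hh' : h' ∈ V τ' δ') (m : M.obj a)
    (h0 : M.map (mulP ⟨a.deg + (γ, δ)⟩ hg' hh') (M.map (mulP a hg hh) m) = 0) :
    M.map (mulP a (V_mul hg hg') (V_mul hh hh')) m = 0 := by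
  rw [← mulP_comp a hg hh hg' hh', M.map_comp, M.map_comp]
  show M.map _ (M.map _ (M.map (mulP a hg hh) m)) = 0
  rw [h0, map_zero]

theorem XT.map {a b : Ob τ τ' false} {m : M.obj a} (h : XT M z w m) {f : ℂ × ℂ → ℂ}
    (hf : f ∈ W τ τ' (b.deg - a.deg)) : XT M z w (M.map (mul f hf) m) := by
  obtain ⟨γ, δ, g, h, hg, hh, h1, h2, h3⟩ := h
  refine ⟨γ, δ, g, h, hg, hh, h1, h2, ?_⟩
  have hP : pr g h ∈ W τ τ' ((⟨b.deg + (γ, δ)⟩ : Ob τ τ' false).deg - b.deg) := by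
    show _ ∈ W τ τ' (b.deg + (γ, δ) - b.deg)
    rw [add_sub_cancel_left]
    exact W_pr hg hh
  have hk : pr g h * f ∈ W τ τ' ((⟨b.deg + (γ, δ)⟩ : Ob τ τ' false).deg - a.deg) := by
    have := W_mul hP hf
    rwa [sub_add_sub_cancel] at this
  have e := mul_apply M hf hP hk rfl m
  show M.map (mul (pr g h) hP) (M.map (mul f hf) m) = 0
  rw [← e]
  refine kill M hg hh h3 _ f hk ?_ (mul_comm _ _)
  show f ∈ W τ τ' (b.deg + (γ, δ) - (a.deg + (γ, δ)))
  rwa [add_sub_add_right_eq_sub]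

theorem XT.add {a : Ob τ τ' false} {m m' : M.obj a} (h : XT M z w m) (h' : XT M z w m') :
    XT M z w (m + m') := by
  obtain ⟨γ, δ, g, h, hg, hh, h1, h2, h3⟩ := h
  obtain ⟨γ', δ', g', h', hg', hh', h1', h2', h3'⟩ := h'
  refine ⟨γ + γ', δ + δ', g * g', h * h', V_mul hg hg', V_mul hh hh', mul_ne_zero h1 h1',
    mul_ne_zero h2 h2', ?_⟩
  rw [map_add]
  have hm : pr (g * g') (h * h') ∈ W τ τ' ((⟨a.deg + (γ + γ', δ + δ')⟩ : Ob τ τ' false).deg -
      a.deg) := by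
    show _ ∈ W τ τ' (a.deg + (γ + γ', δ + δ') - a.deg)
    rw [add_sub_cancel_left]
    exact W_pr (V_mul hg hg') (V_mul hh hh')
  have e1 := kill M hg hh h3 (pr (g * g') (h * h')) (pr g' h') hm (by
    show _ ∈ W τ τ' (a.deg + (γ + γ', δ + δ') - (a.deg + (γ, δ)))
    rw [show a.deg + (γ + γ', δ + δ') - (a.deg + (γ, δ)) = (γ', δ') by
      rw [show (γ + γ', δ + δ') = (γ, δ) + (γ', δ') from rfl]; abel]
    exact W_pr hg' hh') (by
    funext p
    show (g p.1 * g' p.1) * (h p.2 * h' p.2) = (g' p.1 * h' p.2) * (g p.1 * h p.2)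
    ring)
  have e2 := kill M hg' hh' h3' (pr (g * g') (h * h')) (pr g h) hm (by
    show _ ∈ W τ τ' (a.deg + (γ + γ', δ + δ') - (a.deg + (γ', δ')))
    rw [show a.deg + (γ + γ', δ + δ') - (a.deg + (γ', δ')) = (γ, δ) by
      rw [show (γ + γ', δ + δ') = (γ, δ) + (γ', δ') from rfl]; abel]
    exact W_pr hg hh) (by
    funext p
    show (g p.1 * g' p.1) * (h p.2 * h' p.2) = (g p.1 * h p.2) * (g' p.1 * h' p.2)
    ring)
  have e3 : M.map (mulP a (V_mul hg hg') (V_mul hh hh')) m = 0 := e1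
  have e4 : M.map (mulP a (V_mul hg hg') (V_mul hh hh')) m' = 0 := e2
  rw [e3, e4, add_zero]

theorem XT.smul {a : Ob τ τ' false} {m : M.obj a} (h : XT M z w m) (c : ℂ) :
    XT M z w (c • m) := by
  obtain ⟨γ, δ, g, h, hg, hh, h1, h2, h3⟩ := h
  exact ⟨γ, δ, g, h, hg, hh, h1, h2, by rw [map_smul, h3, smul_zero]⟩

theorem XT.zero {a : Ob τ τ' false} : XT M z w (0 : M.obj a) :=
  ⟨0, 0, 1, 1, V_one, V_one, one_ne_zero, one_ne_zero, by rw [map_zero]⟩

theorem back {a b : Ob τ τ' false} (m : M.obj a) {f : ℂ × ℂ → ℂ} (hf : f ∈ W τ τ' (b.deg - a.deg))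
    {γ δ : Gam} {g h : ℂ → ℂ} (hg : g ∈ V τ γ) (hh : h ∈ V τ' δ)
    (h0 : M.map (mulP b hg hh) (M.map (mul f hf) m) = 0) {c : Ob τ τ' false} (k : ℂ × ℂ → ℂ)
    (hk : k ∈ W τ τ' (c.deg - a.deg)) (k' : ℂ × ℂ → ℂ)
    (hk' : k' ∈ W τ τ' (c.deg - (b.deg + (γ, δ)))) (e : k = k' * (pr g h * f)) :
    M.map (mul k hk) m = 0 := by
  have hP : pr g h ∈ W τ τ' ((⟨b.deg + (γ, δ)⟩ : Ob τ τ' false).deg - b.deg) := by
    show _ ∈ W τ τ' (b.deg + (γ, δ) - b.deg)
    rw [add_sub_cancel_left]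
    exact W_pr hg hh
  have hq : pr g h * f ∈ W τ τ' ((⟨b.deg + (γ, δ)⟩ : Ob τ τ' false).deg - a.deg) := by
    have := W_mul hP hf
    rwa [sub_add_sub_cancel] at this
  rw [mul_apply M hq hk' hk e m, mul_apply M hf hP hq rfl m]
  have h1 : M.map (mul (pr g h) hP) (M.map (mul f hf) m) = 0 := h0
  rw [h1, map_zero]

end

section

variable (hτ : 0 < τ.im) (hτ' : 0 < τ'.im) {u v : ℂ → ℂ → ℂ} (hu : TH τ u) (hv : TH τ' v)
  {z w : ℂ} {M : GM τ τ' false}
  (H1 : ∀ (hu : u z ∈ V τ (gu z)) a (x : M.obj.obj a),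
    TE M.obj (M.obj.map (mulP a hu (V_one (τ := τ'))) x))
  (H2 : ∀ (hv : v w ∈ V τ' (gu w)) a (x : M.obj.obj a),
    TE M.obj (M.obj.map (mulP a (V_one (τ := τ)) hv) x))

include hτ hτ' hu hv H1 H2

theorem XT_zero {a b : Ob τ τ' false} {f : ℂ × ℂ → ℂ} (hf : f ∈ W τ τ' (b.deg - a.deg))
    (h0 : f (z, w) = 0) (m : M.obj.obj a) : XT M.obj z w (M.obj.map (mul f hf) m) := by
  obtain ⟨k, hk, k', hk', e⟩ := ((BEKUN.p_KUN τ τ' hτ hτ' u v hu hv (b.deg - a.deg)).2 f hf).2.2.2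
    z w h0
  have hk1 : k ∈ W τ τ' (b.deg - (⟨a.deg + (gu z, 0)⟩ : Ob τ τ' false).deg) := by
    show k ∈ W τ τ' (b.deg - (a.deg + (gu z, 0)))
    rwa [← sub_sub]
  have hk2 : k' ∈ W τ τ' (b.deg - (⟨a.deg + (0, gu w)⟩ : Ob τ τ' false).deg) := by
    show k' ∈ W τ τ' (b.deg - (a.deg + (0, gu w)))
    rwa [← sub_sub]
  have hU : pr (u z) 1 ∈ W τ τ' ((⟨a.deg + (gu z, 0)⟩ : Ob τ τ' false).deg - a.deg) := by
    show _ ∈ W τ τ' (a.deg + (gu z, 0) - a.deg)
    rw [add_sub_cancel_left]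
    exact W_pr (hu.mem z) V_one
  have hV : pr 1 (v w) ∈ W τ τ' ((⟨a.deg + (0, gu w)⟩ : Ob τ τ' false).deg - a.deg) := by
    show _ ∈ W τ τ' (a.deg + (0, gu w) - a.deg)
    rw [add_sub_cancel_left]
    exact W_pr V_one (hv.mem w)
  have m1 : k * pr (u z) 1 ∈ W τ τ' (b.deg - a.deg) := by
    have := W_mul hk1 hU
    rwa [sub_add_sub_cancel] at this
  have m2 : k' * pr 1 (v w) ∈ W τ τ' (b.deg - a.deg) := by
    have := W_mul hk2 hV
    rwa [sub_add_sub_cancel] at this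
  rw [lin_mul M.property 1 m1 m2 hf (by rw [e, one_smul]; ring) m, one_smul]
  refine XT.add ?_ ?_
  · rw [mul_apply M.obj hU hk1 m1 rfl m]
    exact XT.map (H1 (hu.mem z) a m z w) hk1
  · rw [mul_apply M.obj hV hk2 m2 rfl m]
    exact XT.map (H2 (hv.mem w) a m z w) hk2

theorem XT_ne {a b : Ob τ τ' false} {f : ℂ × ℂ → ℂ} (hf : f ∈ W τ τ' (b.deg - a.deg))
    (h0 : f (z, w) ≠ 0) (m : M.obj.obj a) (h : XT M.obj z w (M.obj.map (mul f hf) m)) :
    XT M.obj z w m := by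
  have g1 : (fun t => f (t, w)) ∈ V τ (b.deg - a.deg).1 := W_right hf w
  have g2 : (f (z, w))⁻¹ • (fun t => f (z, t)) ∈ V τ' (b.deg - a.deg).2 :=
    Submodule.smul_mem _ _ (W_left hf z)
  have hP : pr (fun t => f (t, w)) ((f (z, w))⁻¹ • (fun t => f (z, t))) ∈ W τ τ' (b.deg - a.deg) :=
    W_pr g1 g2
  have hd : f - pr (fun t => f (t, w)) ((f (z, w))⁻¹ • (fun t => f (z, t))) ∈
      W τ τ' (b.deg - a.deg) := Submodule.sub_mem _ hf hP
  have h1 := XT_zero hτ hτ' hu hv H1 H2 hd (by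
    show f (z, w) - f (z, w) * ((f (z, w))⁻¹ * f (z, w)) = 0
    rw [inv_mul_cancel₀ h0]; ring) m
  have h2 : XT M.obj z w (M.obj.map (mul _ hP) m) := by
    have e := lin_mul M.property (-1) hd hf hP (by
      rw [neg_one_smul]; ring) m
    rw [e]
    exact XT.add (XT.smul h1 _) h
  obtain ⟨γ, δ, g, h, hg, hh, n1, n2, n3⟩ := h2
  refine ⟨_, _, _, _, V_mul hg g1, V_mul hh g2, mul_ne_zero n1 h0,
    mul_ne_zero n2 (mul_ne_zero (inv_ne_zero h0) h0), ?_⟩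
  refine back m hP hg hh n3 _ _ 1 ?_ ?_
  · show _ ∈ W τ τ' (a.deg + (γ + (b.deg - a.deg).1, δ + (b.deg - a.deg).2) - (b.deg + (γ, δ)))
    rw [show a.deg + (γ + (b.deg - a.deg).1, δ + (b.deg - a.deg).2) - (b.deg + (γ, δ)) = 0 by
      rw [show (γ + (b.deg - a.deg).1, δ + (b.deg - a.deg).2) = (γ, δ) + (b.deg - a.deg) from rfl]
      abel]
    exact W_one
  · funext p
    rw [one_mul]
    show (g p.1 * f (p.1, w)) * (h p.2 * ((f (z, w))⁻¹ * f (z, p.2))) =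
      (g p.1 * h p.2) * (f (p.1, w) * ((f (z, w))⁻¹ * f (z, p.2)))
    ring

omit hτ hτ' in
theorem exists_not_XT (h0 : ¬ tors τ τ' false M) :
    ∃ (a : Ob τ τ' false) (m : M.obj.obj a), ¬ XT M.obj z w m ∧ ¬ TE M.obj m := by
  rw [tors_iff] at h0
  push Not at h0
  obtain ⟨a, m, h⟩ := h0
  have ht := h
  unfold TE at h
  push Not at h
  obtain ⟨z', w', h⟩ := h
  have c1 : Cg τ z' z := by
    by_contra hn
    obtain ⟨γ, δ, g, h', hg, hh, h1, h2, h3⟩ := H1 (hu.mem z) a m z' w'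
    refine h _ _ _ _ (V_mul (hu.mem z) hg) (V_mul (V_one (τ := τ')) hh) (mul_ne_zero ?_ h1)
      (mul_ne_zero one_ne_zero h2) (mulP_mulP a _ _ _ _ m h3)
    exact fun h0 => hn ((hu.zero _ _).1 h0)
  have c2 : Cg τ' w' w := by
    by_contra hn
    obtain ⟨γ, δ, g, h', hg, hh, h1, h2, h3⟩ := H2 (hv.mem w) a m z' w'
    refine h _ _ _ _ (V_mul (V_one (τ := τ)) hg) (V_mul (hv.mem w) hh)
      (mul_ne_zero one_ne_zero h1) (mul_ne_zero ?_ h2) (mulP_mulP a _ _ _ _ m h3)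
    exact fun h0 => hn ((hv.zero _ _).1 h0)
  refine ⟨a, m, ?_, ht⟩
  rintro ⟨γ, δ, g, h', hg, hh, h1, h2, h3⟩
  exact h γ δ g h' hg hh (fun h0 => h1 ((V_per hg c1).1 h0)) (fun h0 => h2 ((V_per hh c2).1 h0)) h3

end

/-! ### The map to the skyscraper sheaf -/

section toSky

variable (z w : ℂ)

/-- There is a function with value one. -/
def Good (a b : Ob τ τ' false) : Prop := ∃ k ∈ W τ τ' (b.deg - a.deg), k (z, w) = 1

variable {z w}

theorem Good.trans {a b c : Ob τ τ' false} (h : Good z w a b) (h' : Good z w b c) :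
    Good z w a c := by
  obtain ⟨k, hk, e⟩ := h
  obtain ⟨k', hk', e'⟩ := h'
  refine ⟨k' * k, ?_, by rw [Pi.mul_apply, e, e', one_mul]⟩
  have := W_mul hk' hk
  rwa [sub_add_sub_cancel] at this

theorem good_of (hτ : 0 < τ.im) (hτ' : 0 < τ'.im) {u v : ℂ → ℂ → ℂ} (hu : TH τ u) (hv : TH τ' v)
    (a b : Ob τ τ' false) (h1 : 2 ≤ (b.deg - a.deg).1.1) (h2 : 2 ≤ (b.deg - a.deg).2.1) :
    Good z w a b := by
  obtain ⟨g, hg, g0⟩ := (BESEC.p_SEC τ hτ u hu).1 _ z h1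
  obtain ⟨h, hh, h0⟩ := (BESEC.p_SEC τ' hτ' v hv).1 _ w h2
  refine ⟨pr ((g z)⁻¹ • g) ((h w)⁻¹ • h), W_pr (Submodule.smul_mem _ _ hg)
    (Submodule.smul_mem _ _ hh), ?_⟩
  show ((g z)⁻¹ * g z) * ((h w)⁻¹ * h w) = 1
  rw [inv_mul_cancel₀ g0, inv_mul_cancel₀ h0, one_mul]

theorem bound (hτ : 0 < τ.im) (hτ' : 0 < τ'.im) {u v : ℂ → ℂ → ℂ} (hu : TH τ u) (hv : TH τ' v)
    (a b : Ob τ τ' false) : ∃ c : Ob τ τ' false, Good z w a c ∧ Good z w b c := by
  refine ⟨⟨((2 + |a.deg.1.1| + |b.deg.1.1|, 0), (2 + |a.deg.2.1| + |b.deg.2.1|, 0))⟩,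
    good_of hτ hτ' hu hv _ _ ?_ ?_, good_of hτ hτ' hu hv _ _ ?_ ?_⟩
  · show 2 ≤ 2 + |a.deg.1.1| + |b.deg.1.1| - a.deg.1.1
    have := le_abs_self a.deg.1.1
    have := abs_nonneg b.deg.1.1
    linarith
  · show 2 ≤ 2 + |a.deg.2.1| + |b.deg.2.1| - a.deg.2.1
    have := le_abs_self a.deg.2.1
    have := abs_nonneg b.deg.2.1
    linarith
  · show 2 ≤ 2 + |a.deg.1.1| + |b.deg.1.1| - b.deg.1.1
    have := le_abs_self b.deg.1.1
    have := abs_nonneg a.deg.1.1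
    linarith
  · show 2 ≤ 2 + |a.deg.2.1| + |b.deg.2.1| - b.deg.2.1
    have := le_abs_self b.deg.2.1
    have := abs_nonneg a.deg.2.1
    linarith

end toSky

section psi

open Classical

variable (z w : ℂ) (M : GM τ τ' false)

/-- The relations. -/
def gens : Set (DirectSum (Ob τ τ' false) (fun a => M.obj.obj a)) :=
  {q | ∃ (a b : Ob τ τ' false) (φ : a ⟶ b) (m : M.obj.obj a),
    q = DirectSum.lof ℂ _ (fun a => M.obj.obj a) b (M.obj.map φ m) -
      (φ : Mor a b).f (z, w) • DirectSum.lof ℂ _ (fun a => M.obj.obj a) a m}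

/-- Multiplication into a large degree. -/
noncomputable def Psi (c : Ob τ τ' false) :
    (DirectSum (Ob τ τ' false) (fun a => M.obj.obj a)) →ₗ[ℂ] M.obj.obj c :=
  DirectSum.toModule ℂ _ _ (fun d => if h : Good z w d c then
    (M.obj.map (mul h.choose h.choose_spec.1)).hom else 0)

variable {z w M}

theorem Psi_lof {c d : Ob τ τ' false} (h : Good z w d c) : ∃ (k : ℂ × ℂ → ℂ)
    (hk : k ∈ W τ τ' (c.deg - d.deg)), k (z, w) = 1 ∧ ∀ m, Psi z w M c (DirectSum.lof ℂ _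
      (fun a => M.obj.obj a) d m) = M.obj.map (mul k hk) m := by
  refine ⟨h.choose, h.choose_spec.1, h.choose_spec.2, fun m => ?_⟩
  unfold Psi
  rw [DirectSum.toModule_lof, dif_pos h]

theorem Psi_mem (hτ : 0 < τ.im) (hτ' : 0 < τ'.im) {u v : ℂ → ℂ → ℂ} (hu : TH τ u) (hv : TH τ' v)
    (H1 : ∀ (hu : u z ∈ V τ (gu z)) a (x : M.obj.obj a),
      TE M.obj (M.obj.map (mulP a hu (V_one (τ := τ'))) x))
    (H2 : ∀ (hv : v w ∈ V τ' (gu w)) a (x : M.obj.obj a),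
      TE M.obj (M.obj.map (mulP a (V_one (τ := τ)) hv) x))
    (q : DirectSum (Ob τ τ' false) (fun a => M.obj.obj a))
    (hq : q ∈ Submodule.span ℂ (gens z w M)) :
    ∃ c, ∀ c', Good z w c c' → XT M.obj z w (Psi z w M c' q) := by
  induction hq using Submodule.span_induction with
  | mem x hx =>
    obtain ⟨a, b, φ, m, rfl⟩ := hx
    obtain ⟨c, h1, h2⟩ := bound (z := z) (w := w) hτ hτ' hu hv a b
    refine ⟨c, fun c' h => ?_⟩
    obtain ⟨k, hk, k1, e⟩ := Psi_lof (M := M) (h1.trans h)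
    obtain ⟨k', hk', k1', e'⟩ := Psi_lof (M := M) (h2.trans h)
    rw [map_sub, map_smul, e, e']
    have hφ := f_mem φ
    have hm : k' * (φ : Mor a b).f ∈ W τ τ' (c'.deg - a.deg) := by
      have := W_mul hk' hφ
      rwa [sub_add_sub_cancel] at this
    have hm2 : k' * (φ : Mor a b).f - (φ : Mor a b).f (z, w) • k ∈ W τ τ' (c'.deg - a.deg) :=
      Submodule.sub_mem _ hm (Submodule.smul_mem _ _ hk)
    have e1 : M.obj.map (mul k' hk') (M.obj.map φ m) = M.obj.map (mul _ hm) m := by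
      rw [mul_apply M.obj hφ hk' hm rfl m, ← to_mul φ]
    have e2 := lin_mul M.property (-(φ : Mor a b).f (z, w)) hk hm hm2 (by
      rw [neg_smul]; ring) m
    have e3 : M.obj.map (mul k' hk') (M.obj.map φ m) - (φ : Mor a b).f (z, w) •
        M.obj.map (mul k hk) m = M.obj.map (mul _ hm2) m := by
      rw [e1, e2, neg_smul]
      abel
    rw [e3]
    refine XT_zero hτ hτ' hu hv H1 H2 hm2 ?_ m
    show k' (z, w) * (φ : Mor a b).f (z, w) - (φ : Mor a b).f (z, w) * k (z, w) = 0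
    rw [k1, k1']
    ring
  | zero => exact ⟨⟨0⟩, fun c' h => by rw [map_zero]; exact XT.zero⟩
  | add x y _ _ hx hy =>
    obtain ⟨c, hc⟩ := hx
    obtain ⟨d, hd⟩ := hy
    obtain ⟨e, h1, h2⟩ := bound (z := z) (w := w) hτ hτ' hu hv c d
    refine ⟨e, fun c' h => ?_⟩
    rw [map_add]
    exact XT.add (hc c' (h1.trans h)) (hd c' (h2.trans h))
  | smul r x _ hx =>
    obtain ⟨c, hc⟩ := hx
    refine ⟨c, fun c' h => ?_⟩
    rw [map_smul]
    exact XT.smul (hc c' h) r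

theorem exists_to (hτ : 0 < τ.im) (hτ' : 0 < τ'.im) {u v : ℂ → ℂ → ℂ} (hu : TH τ u) (hv : TH τ' v)
    (H1 : ∀ (hu : u z ∈ V τ (gu z)) a (x : M.obj.obj a),
      TE M.obj (M.obj.map (mulP a hu (V_one (τ := τ'))) x))
    (H2 : ∀ (hv : v w ∈ V τ' (gu w)) a (x : M.obj.obj a),
      TE M.obj (M.obj.map (mulP a (V_one (τ := τ)) hv) x))
    {a : Ob τ τ' false} {m : M.obj.obj a} (hm : ¬ XT M.obj z w m) :
    ∃ f : M ⟶ pt τ τ' (z, w), (sh τ τ' false).map f ≠ 0 := by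
  have h1 : DirectSum.lof ℂ _ (fun a => M.obj.obj a) a m ∉ Submodule.span ℂ (gens z w M) := by
    intro hq
    obtain ⟨c, hc⟩ := Psi_mem hτ hτ' hu hv H1 H2 _ hq
    obtain ⟨d, g1, g2⟩ := bound (z := z) (w := w) hτ hτ' hu hv c a
    obtain ⟨k, hk, k1, e⟩ := Psi_lof (M := M) g2
    have h2 := hc d g1
    rw [e] at h2
    exact hm (XT_ne hτ hτ' hu hv H1 H2 hk (by rw [k1]; exact one_ne_zero) m h2)
  obtain ⟨L, hL, hL'⟩ := Submodule.exists_le_ker_of_notMem h1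
  have key : ∀ {b c : Ob τ τ' false} (φ : b ⟶ c) (y : M.obj.obj b),
      L (DirectSum.lof ℂ _ (fun a => M.obj.obj a) c (M.obj.map φ y)) =
      (φ : Mor b c).f (z, w) * L (DirectSum.lof ℂ _ (fun a => M.obj.obj a) b y) := by
    intro b c φ y
    have := hL' (Submodule.subset_span ⟨b, c, φ, y, rfl⟩)
    rw [LinearMap.mem_ker, map_sub, map_smul, sub_eq_zero] at this
    exact this
  let f : M ⟶ pt τ τ' (z, w) := (lin τ τ' false).homMk
    { app := fun b => ModuleCat.ofHom (L ∘ₗ DirectSum.lof ℂ _ (fun a => M.obj.obj a) b)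
      naturality := fun b c φ => by
        refine ModuleCat.hom_ext (LinearMap.ext fun y => ?_)
        exact key φ y }
  refine ⟨f, fun h0 => ?_⟩
  rw [sh_map_eq_zero] at h0
  obtain ⟨γ, δ, g, h, hg, hh, n1, n2, n3⟩ := h0 a m z w
  have h3 : (g z * h w) * L (DirectSum.lof ℂ _ (fun a => M.obj.obj a) a m) = 0 := n3
  exact (mul_ne_zero (mul_ne_zero n1 n2) hL) h3

end psi

/-! ### The map from the skyscraper sheaf -/

section

variable {M : GM τ τ' false}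

theorem el_nat {a c d : Ob τ τ' false} (m : M.obj.obj a) (φ : c ⟶ d) (k : W τ τ' (c.deg - a.deg)) :
    M.obj.map (mul (a := a) (b := d) ((φ : Mor c d).f * k.1) (by
      have := W_mul (f_mem φ) k.2
      rwa [sub_add_sub_cancel] at this)) m = M.obj.map φ (M.obj.map (mul k.1 k.2) m) := by
  have h2 : (φ : Mor c d).f * k.1 ∈ W τ τ' (d.deg - a.deg) := by
    have := W_mul (f_mem φ) k.2
    rwa [sub_add_sub_cancel] at this
  have h := mul_apply M.obj (a := a) (b := c) (c := d) k.2 (f_mem φ) h2 rfl m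
  rw [← to_mul φ] at h
  exact h

/-- The map from a free module given by an element. -/
noncomputable def el {a : Ob τ τ' false} (m : M.obj.obj a) : fm (fW τ τ') a.deg ⟶ M :=
  (lin τ τ' false).homMk
  { app := fun c => ModuleCat.ofHom
      { toFun := fun k => M.obj.map (mul (a := a) (b := c) (k : W τ τ' (c.deg - a.deg)).1
          (k : W τ τ' (c.deg - a.deg)).2) m
        map_add' := fun k k' => by
          have h := lin_mul M.property 1 (a := a) (b := c) (k : W τ τ' (c.deg - a.deg)).2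
            (k' : W τ τ' (c.deg - a.deg)).2 ((k : W τ τ' (c.deg - a.deg)) +
            (k' : W τ τ' (c.deg - a.deg))).2 (by rw [one_smul]; rfl) m
          rw [one_smul] at h
          exact h
        map_smul' := fun r k => by
          have h := lin_mul M.property r (a := a) (b := c) (k : W τ τ' (c.deg - a.deg)).2
            (0 : W τ τ' (c.deg - a.deg)).2 (r • (k : W τ τ' (c.deg - a.deg))).2
            (by show _ = _ + (0 : ℂ × ℂ → ℂ); rw [add_zero]; rfl) m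
          have h' := lin_mul M.property (-1) (a := a) (b := c) (0 : W τ τ' (c.deg - a.deg)).2
            (0 : W τ τ' (c.deg - a.deg)).2 (0 : W τ τ' (c.deg - a.deg)).2
            (by show (0 : ℂ × ℂ → ℂ) = (-1 : ℂ) • (0 : ℂ × ℂ → ℂ) + (0 : ℂ × ℂ → ℂ); simp) m
          rw [neg_one_smul, neg_add_cancel] at h'
          rw [h', add_zero] at h
          exact h }
    naturality := fun c d φ => by
      refine ModuleCat.hom_ext (LinearMap.ext fun k => ?_)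
      exact el_nat m φ k }

theorem el_app {a c : Ob τ τ' false} (m : M.obj.obj a) (k : W τ τ' (c.deg - a.deg)) :
    (el m).hom.app c k = M.obj.map (mul (a := a) (b := c) k.1 k.2) m := rfl

theorem TE.add' {a : Ob τ τ' false} {m m' : M.obj.obj a} (h : TE M.obj m) (h' : TE M.obj m') :
    TE M.obj (m + m') := fun z w => XT.add (h z w) (h' z w)

theorem TE.map' {a b : Ob τ τ' false} {m : M.obj.obj a} (h : TE M.obj m) {f : ℂ × ℂ → ℂ}
    (hf : f ∈ W τ τ' (b.deg - a.deg)) : TE M.obj (M.obj.map (mul f hf) m) :=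
  fun z w => XT.map (h z w) hf

end

/-- The evaluation at a point. -/
noncomputable def evm (z w : ℂ) (a : Gam2) : fm (fW τ τ') a ⟶ fm (fP τ τ' (z, w)) a :=
  fmr (fW τ τ') (fP τ τ' (z, w)) (fun _ => (z, w)) (fun _ => rfl) (fun _ _ _ => fP_mem _ _ _) a

theorem epi_evm (hτ : 0 < τ.im) (hτ' : 0 < τ'.im) {u v : ℂ → ℂ → ℂ} (hu : TH τ u) (hv : TH τ' v)
    (z w : ℂ) (a : Gam2) : Epi ((sh τ τ' false).map (evm (τ := τ) (τ' := τ') z w a)) := by
  refine BESEQ.epi_sh _ fun c y z₀ w₀ => ?_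
  obtain ⟨γ, g, G, hg, hG, g0, G0⟩ := BESEQ.big hτ hu (c.deg - a).1 z₀ z
  obtain ⟨δ, h, H, hh, hH, h0, H0⟩ := BESEQ.big hτ' hv (c.deg - a).2 w₀ w
  have hm : pr (((g z * (y : (fP τ τ' (z, w)).U (c.deg - a)).1 ()) / G z) • G) ((h w / H w) • H) ∈
      W τ τ' (c.deg + (γ, δ) - a) := by
    have e : c.deg + (γ, δ) - a = ((c.deg - a).1 + γ, (c.deg - a).2 + δ) := by
      rw [show c.deg + (γ, δ) - a = (c.deg - a) + (γ, δ) by abel]
      rfl
    rw [e]
    exact W_pr (Submodule.smul_mem _ _ hG) (Submodule.smul_mem _ _ hH)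
  refine ⟨γ, δ, g, h, hg, hh, g0, h0, (⟨_, hm⟩ : (fW τ τ').U (c.deg + (γ, δ) - a)), ?_⟩
  refine Subtype.ext (funext fun t => ?_)
  show (((g z * (y : (fP τ τ' (z, w)).U (c.deg - a)).1 ()) / G z) * G z) * ((h w / H w) * H w) =
    (g z * h w) * (y : (fP τ τ' (z, w)).U (c.deg - a)).1 ()
  rw [div_mul_cancel₀ _ G0, div_mul_cancel₀ _ H0]
  ring

section

variable (hτ : 0 < τ.im) (hτ' : 0 < τ'.im) {u v : ℂ → ℂ → ℂ} (hu : TH τ u) (hv : TH τ' v)
  (z w : ℂ) (a : Gam2)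
  (m1 : pr (u z) 1 ∈ W τ τ' (a + (gu z, 0) - a)) (m2 : pr 1 (v w) ∈ W τ τ' (a + (0, gu w) - a))

include hu hv in
theorem ev0 : biprod.desc (fmm (fW τ τ') (a := a) (b := a + (gu z, 0)) (pr (u z) 1) m1)
    (fmm (fW τ τ') (a := a) (b := a + (0, gu w)) (pr 1 (v w)) m2) ≫ evm z w a = 0 := by
  refine biprod.hom_ext' _ _ ?_ ?_
  · rw [biprod.inl_desc_assoc, comp_zero]
    refine ObjectProperty.hom_ext _ ?_
    ext c k
    refine Subtype.ext (funext fun t => ?_)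
    show (u z z * 1) * (k : (fW τ τ').U (c.deg - (a + (gu z, 0)))).1 (z, w) = 0
    rw [(hu.zero z z).2 ⟨0, 0, by simp⟩]
    ring
  · rw [biprod.inr_desc_assoc, comp_zero]
    refine ObjectProperty.hom_ext _ ?_
    ext c k
    refine Subtype.ext (funext fun t => ?_)
    show (1 * v w w) * (k : (fW τ τ').U (c.deg - (a + (0, gu w)))).1 (z, w) = 0
    rw [(hv.zero w w).2 ⟨0, 0, by simp⟩]
    ring

include hτ hτ' in
theorem exact_ev : (ShortComplex.mk _ _ (ev0 hu hv z w a m1 m2)).Exact := by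
  rw [gm_exact_iff]
  intro c x hx
  have hx' : (x : (fW τ τ').U (c.deg - a)).1 (z, w) = 0 := congrFun (congrArg Subtype.val hx) ()
  obtain ⟨k, hk, k', hk', e⟩ := ((BEKUN.p_KUN τ τ' hτ hτ' u v hu hv (c.deg - a)).2 _
    (x : (fW τ τ').U (c.deg - a)).2).2.2.2 z w hx'
  have hk1 : k ∈ W τ τ' (c.deg - (a + (gu z, 0))) := by rwa [← sub_sub]
  have hk2 : k' ∈ W τ τ' (c.deg - (a + (0, gu w))) := by rwa [← sub_sub]
  let K : (fm (fW τ τ') (a + (gu z, 0))).obj.obj c :=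
    (⟨k, hk1⟩ : (fW τ τ').U (c.deg - (a + (gu z, 0))))
  let K' : (fm (fW τ τ') (a + (0, gu w))).obj.obj c :=
    (⟨k', hk2⟩ : (fW τ τ').U (c.deg - (a + (0, gu w))))
  let A := fmm (fW τ τ') (a := a) (b := a + (gu z, 0)) (pr (u z) 1) m1
  let B := fmm (fW τ τ') (a := a) (b := a + (0, gu w)) (pr 1 (v w)) m2
  refine ⟨(biprod.inl : _ ⟶ fm (fW τ τ') (a + (gu z, 0)) ⊞ fm (fW τ τ') (a + (0, gu w))).hom.app c K
    + (biprod.inr : _ ⟶ fm (fW τ τ') (a + (gu z, 0)) ⊞ fm (fW τ τ') (a + (0, gu w))).hom.app c K',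
    ?_⟩
  have e1 : (biprod.desc A B).hom.app c (biprod.inl (C := GM τ τ' false).hom.app c K) =
      A.hom.app c K := by
    have h := congrArg (fun f => f.hom.app c K) (biprod.inl_desc A B)
    exact h
  have e2 : (biprod.desc A B).hom.app c (biprod.inr (C := GM τ τ' false).hom.app c K') =
      B.hom.app c K' := by
    have h := congrArg (fun f => f.hom.app c K') (biprod.inr_desc A B)
    exact h
  show (biprod.desc A B).hom.app c (_ + _) = x
  rw [map_add, e1, e2]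
  exact Subtype.ext e.symm

end

theorem TE_fm {M : GM τ τ' false} {a : Ob τ τ' false} (m : M.obj.obj a) {b : Gam2} {f : ℂ × ℂ → ℂ}
    (hf : f ∈ W τ τ' (b - a.deg)) (h : TE M.obj (M.obj.map (mul (a := a) (b := ⟨b⟩) f hf) m)) :
    (sh τ τ' false).map (fmm (fW τ τ') (a := a.deg) (b := b) f hf ≫ el m) = 0 := by
  rw [sh_map_eq_zero]
  intro c k
  have key : ∀ k : W τ τ' (c.deg - b), TE M.obj (M.obj.map (mul (a := a) (b := c) (f * k.1) (by
      have := W_mul hf k.2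
      rwa [show b - a.deg + (c.deg - b) = c.deg - a.deg by abel] at this)) m) := by
    intro k
    have hm3 : f * k.1 ∈ W τ τ' (c.deg - a.deg) := by
      have := W_mul hf k.2
      rwa [show b - a.deg + (c.deg - b) = c.deg - a.deg by abel] at this
    have e := mul_apply M.obj (a := a) (b := ⟨b⟩) (c := c) hf k.2 hm3 (mul_comm _ _) m
    rw [e]
    exact TE.map' h k.2
  exact key k

theorem exists_from (hτ : 0 < τ.im) (hτ' : 0 < τ'.im) {u v : ℂ → ℂ → ℂ} (hu : TH τ u) (hv : TH τ' v)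
    {z w : ℂ} {M : GM τ τ' false}
    (H1 : ∀ (hu : u z ∈ V τ (gu z)) a (x : M.obj.obj a),
      TE M.obj (M.obj.map (mulP a hu (V_one (τ := τ'))) x))
    (H2 : ∀ (hv : v w ∈ V τ' (gu w)) a (x : M.obj.obj a),
      TE M.obj (M.obj.map (mulP a (V_one (τ := τ)) hv) x))
    {a : Ob τ τ' false} {m : M.obj.obj a} (hm : ¬ TE M.obj m) :
    ∃ f : (sh τ τ' false).obj (pt τ τ' (z, w)) ⟶ (sh τ τ' false).obj M, f ≠ 0 := by
  have m1 : pr (u z) 1 ∈ W τ τ' (a.deg + (gu z, 0) - a.deg) := by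
    rw [add_sub_cancel_left]
    exact W_pr (hu.mem z) V_one
  have m2 : pr 1 (v w) ∈ W τ τ' (a.deg + (0, gu w) - a.deg) := by
    rw [add_sub_cancel_left]
    exact W_pr V_one (hv.mem w)
  let A := fmm (fW τ τ') (a := a.deg) (b := a.deg + (gu z, 0)) (pr (u z) 1) m1
  let B := fmm (fW τ τ') (a := a.deg) (b := a.deg + (0, gu w)) (pr 1 (v w)) m2
  have hA : (sh τ τ' false).map (A ≫ el m) = 0 := TE_fm m m1 (H1 (hu.mem z) a m)
  have hB : (sh τ τ' false).map (B ≫ el m) = 0 := TE_fm m m2 (H2 (hv.mem w) a m)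
  have hS := (exact_ev hτ hτ' hu hv z w a.deg m1 m2).map (sh τ τ' false)
  have hk : ((ShortComplex.mk _ _ (ev0 hu hv z w a.deg m1 m2)).map (sh τ τ' false)).f ≫
      (sh τ τ' false).map (el m) = 0 := by
    show (sh τ τ' false).map (biprod.desc A B) ≫ (sh τ τ' false).map (el m) = 0
    rw [← Functor.map_comp, biprod.desc_eq, Preadditive.add_comp, Functor.map_add, Category.assoc,
      Category.assoc, Functor.map_comp, Functor.map_comp _ biprod.snd, hA, hB, comp_zero, comp_zero,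
      add_zero]
  have hE : Epi ((ShortComplex.mk _ _ (ev0 hu hv z w a.deg m1 m2)).map (sh τ τ' false)).g :=
    epi_evm hτ hτ' hu hv z w a.deg
  obtain ⟨d, hd⟩ : ∃ d : (sh τ τ' false).obj (fm (fP τ τ' (z, w)) a.deg) ⟶ (sh τ τ' false).obj M,
      (sh τ τ' false).map (evm z w a.deg) ≫ d = (sh τ τ' false).map (el m) := hS.desc' _ hk
  refine ⟨(sh τ τ' false).map (fPpt (z, w) a.deg).inv ≫ d, fun h0 => hm ?_⟩
  have h1 : d = 0 := by
    have : Epi ((sh τ τ' false).map (fPpt (z, w) a.deg).inv) := inferInstance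
    rw [← cancel_epi ((sh τ τ' false).map (fPpt (z, w) a.deg).inv), comp_zero]
    exact h0
  rw [h1, comp_zero] at hd
  have h5 := (sh_map_eq_zero (el m)).1 hd.symm a
    (⟨1, by rw [sub_self]; exact W_one⟩ : W τ τ' (a.deg - a.deg))
  have h6 : (el m).hom.app a (⟨1, by rw [sub_self]; exact W_one⟩ : W τ τ' (a.deg - a.deg)) =
      M.obj.map (𝟙 a) m := rfl
  rw [h6, M.obj.map_id] at h5
  exact h5

theorem p_DU : S_DU := by
  intro τ τ' hτ hτ' u v hu hv z w M H1 H2 h0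
  obtain ⟨a, m, h1, h2⟩ := exists_not_XT hu hv H1 H2 h0
  exact ⟨exists_to hτ hτ' hu hv H1 H2 h1, exists_from hτ hτ' hu hv H1 H2 h2⟩

end Run7.h299.BEDU
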