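import Pool.Agent.Run7.h299.BE_TH

/-!
# Piece NORM: an object invariant under the twists of degree zero is killed by a theta function
-/

set_option autoImplicit false

open CategoryTheory CategoryTheory.Limits Pretriangulated Triangulated Complex ZeroObject

namespace Run7.h299.BENORM

open Run7.h354.BE

universe v u

/-! ### Determinants of matrices of theta functions -/

section det

variable {τ : ℂ}

theorem prod_mem {ι : Type*} (s : Finset ι) (f : ι → ℂ → ℂ) (γ : ι → Gam)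
    (h : ∀ i ∈ s, f i ∈ V τ (γ i)) : ∏ i ∈ s, f i ∈ V τ (∑ i ∈ s, γ i) := by
  classical
  induction s using Finset.induction_on with
  | empty => simpa using (V_one (τ := τ))
  | insert a s ha ih =>
    rw [Finset.prod_insert ha, Finset.sum_insert ha]
    exact V_mul (h a (Finset.mem_insert_self _ _)) (ih fun i hi => h i (Finset.mem_insert_of_mem hi))

variable {ι : Type*} [Fintype ι] [DecidableEq ι]

theorem det_mem (M : Matrix ι ι (ℂ → ℂ)) (α β : ι → Gam) (h : ∀ i j, M i j ∈ V τ (α i - β j)) :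
    M.det ∈ V τ (∑ i, α i - ∑ j, β j) := by
  rw [Matrix.det_apply]
  refine Submodule.sum_mem _ fun σ _ => ?_
  have h1 : ∏ i, M (σ i) i ∈ V τ (∑ i, α i - ∑ j, β j) := by
    have h2 := prod_mem Finset.univ (fun i => M (σ i) i) (fun i => α (σ i) - β i)
      (fun i _ => h (σ i) i)
    rwa [Finset.sum_sub_distrib, Equiv.sum_comp σ α] at h2
  rcases Int.units_eq_one_or (Equiv.Perm.sign σ) with h2 | h2
  · rw [h2, one_smul]; exact h1
  · rw [h2, Units.neg_smul, one_smul]; exact Submodule.neg_mem _ h1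

theorem adj_mem (M : Matrix ι ι (ℂ → ℂ)) (α β : ι → Gam) (h : ∀ i j, M i j ∈ V τ (α i - β j))
    (m i : ι) : M.adjugate m i ∈ V τ (∑ i, α i - ∑ j, β j + β m - α i) := by
  rw [Matrix.adjugate_apply]
  have h1 := det_mem (τ := τ) (M.updateRow i (Pi.single m 1)) (Function.update α i (β m)) β (by
    intro k j
    by_cases hk : k = i
    · subst hk
      rw [Matrix.updateRow_self, Function.update_self]
      by_cases hj : j = m
      · subst hj
        rw [Pi.single_eq_same, sub_self]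
        exact V_one
      · rw [Pi.single_eq_of_ne hj]
        exact Submodule.zero_mem _
    · rw [Matrix.updateRow_ne hk, Function.update_of_ne hk]
      exact h k j)
  have h2 : ∑ k, Function.update α i (β m) k = ∑ k, α k + β m - α i := by
    rw [Finset.sum_update_of_mem (Finset.mem_univ i), ← Finset.add_sum_erase _ α (Finset.mem_univ i),
      Finset.sdiff_singleton_eq_erase]
    abel
  rw [h2] at h1
  rwa [show ∑ i, α i - ∑ j, β j + β m - α i = ∑ i, α i + β m - α i - ∑ j, β j by abel]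

end det

/-! ### Circulant matrices -/

section circ

variable {N : ℕ} [NeZero N]

theorem circ_det (b : ZMod N → ℂ) (h : ∀ k : ZMod N, ∑ j, b j * ZMod.stdAddChar (j * k) ≠ 0) :
    (Matrix.of fun i m : ZMod N => b (m - i)).det ≠ 0 := by
  set M : Matrix (ZMod N) (ZMod N) ℂ := Matrix.of fun i m : ZMod N => b (m - i) with hM
  set F : Matrix (ZMod N) (ZMod N) ℂ := Matrix.of fun i k => ZMod.stdAddChar (i * k) with hF
  set G : Matrix (ZMod N) (ZMod N) ℂ := Matrix.of fun k i => ZMod.stdAddChar (-(i * k)) with hG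
  set D : ZMod N → ℂ := fun k => ∑ j, b j * ZMod.stdAddChar (j * k) with hD
  have h1 : M * F = F * Matrix.diagonal D := by
    ext i k
    rw [Matrix.mul_diagonal, Matrix.mul_apply]
    simp only [hM, hF, hD, Matrix.of_apply]
    rw [← Equiv.sum_comp (Equiv.addRight i), Finset.mul_sum]
    refine Finset.sum_congr rfl fun j _ => ?_
    rw [Equiv.coe_addRight, add_sub_cancel_right, add_mul, AddChar.map_add_eq_mul]
    ring
  have h2 : F * G = Matrix.diagonal fun _ => (N : ℂ) := by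
    ext i l
    rw [Matrix.mul_apply, Matrix.diagonal_apply]
    simp only [hF, hG, Matrix.of_apply]
    have h3 : ∀ k : ZMod N, ZMod.stdAddChar (i * k) * ZMod.stdAddChar (-(l * k)) =
        (ZMod.stdAddChar (k * (i - l)) : ℂ) := by
      intro k
      rw [← AddChar.map_add_eq_mul]
      congr 1
      ring
    rw [Finset.sum_congr rfl fun k _ => h3 k,
      AddChar.sum_mulShift _ (ZMod.isPrimitive_stdAddChar N)]
    by_cases hil : i = l
    · simp [hil]
    · simp [hil, sub_eq_zero]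
  have h4 : F.det ≠ 0 := by
    intro h5
    have h6 := congrArg Matrix.det h2
    rw [Matrix.det_mul, h5, zero_mul, Matrix.det_diagonal] at h6
    have h7 : (N : ℂ) ≠ 0 := Nat.cast_ne_zero.2 (NeZero.ne N)
    exact Finset.prod_ne_zero_iff.2 (fun _ _ => h7) h6.symm
  intro h5
  have h6 := congrArg Matrix.det h1
  rw [Matrix.det_mul, Matrix.det_mul, h5, zero_mul, Matrix.det_diagonal] at h6
  exact (mul_ne_zero h4 (Finset.prod_ne_zero_iff.2 fun k _ => h k)) h6.symm

end circ

/-! ### Linear independence -/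

/-- the operator `f ↦ exp (2 π i n z) f (z + τ)` -/
noncomputable def T (τ : ℂ) (n : ℤ) : Module.End ℂ (ℂ → ℂ) where
  toFun f z := exp (2 * Real.pi * I * n * z) * f (z + τ)
  map_add' f g := by funext z; simp [mul_add]
  map_smul' r f := by funext z; simp; ring

theorem indep {τ : ℂ} {ι : Type*} (n : ℤ) (γ : ι → Gam) (hγ : Function.Injective γ)
    (hn : ∀ i, (γ i).1 = n) (f : ι → ℂ → ℂ) (hf : ∀ i, f i ∈ V τ (γ i)) (hf0 : ∀ i, f i ≠ 0) :
    LinearIndependent ℂ f := by
  refine Module.End.eigenvectors_linearIndependent' (T τ n) (fun i => (γ i).c) ?_ f ?_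
  · intro i j hij
    exact hγ (Gam.ext' ((hn i).trans (hn j).symm) hij)
  · intro i
    refine ⟨?_, hf0 i⟩
    rw [Module.End.mem_eigenspace_iff]
    funext z
    show exp (2 * Real.pi * I * n * z) * f i (z + τ) = (γ i).c * f i z
    rw [(hf i).2.2, hn]
    have h1 : exp (2 * Real.pi * I * n * z) * exp (-(2 * Real.pi * I * n * z)) = 1 := by
      rw [← exp_add, add_neg_cancel, exp_zero]
    linear_combination ((γ i).c * f i z) * h1

theorem prod_ne {ι : Type*} (s : Finset ι) (f : ι → ℂ → ℂ) (hd : ∀ i ∈ s, Differentiable ℂ (f i))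
    (hf : ∀ i ∈ s, ∃ z, f i z ≠ 0) : ∃ z, ∀ i ∈ s, f i z ≠ 0 := by
  classical
  induction s using Finset.induction_on with
  | empty => exact ⟨0, by simp⟩
  | insert a s ha ih =>
    obtain ⟨w, hw⟩ := ih (fun i hi => hd i (Finset.mem_insert_of_mem hi))
      (fun i hi => hf i (Finset.mem_insert_of_mem hi))
    by_contra hc
    push Not at hc
    have h1 := BETH.cancel (hd a (Finset.mem_insert_self _ _)) (h := fun z => ∏ i ∈ s, f i z)
      (continuous_finsetProd _ fun i hi => (hd i (Finset.mem_insert_of_mem hi)).continuous)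
      (hf a (Finset.mem_insert_self _ _)) (fun z => by
        obtain ⟨i, hi, h2⟩ := hc z
        rcases Finset.mem_insert.1 hi with rfl | h3
        · rw [h2, zero_mul]
        · rw [Finset.prod_eq_zero h3 h2, mul_zero])
    have h2 := h1 w
    rw [Finset.prod_eq_zero_iff] at h2
    obtain ⟨i, hi, h3⟩ := h2
    exact hw i hi h3

/-! ### The action -/

section act

variable {C : Type u} [Category.{v} C] [Preadditive C] [Linear ℂ C] [HasZeroObject C]
  [HasShift C ℤ] [∀ n : ℤ, (shiftFunctor C n).Additive] [Pretriangulated C]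
variable {τ : ℂ} (E : EA τ C) (A : C)

theorem map_zero' {a b : Gr τ} : E.Φ.map (0 : a ⟶ b) = 0 := by
  have h := E.lin (1 : ℂ) (0 : a ⟶ b) 0
  rw [one_smul, one_smul, add_zero] at h
  exact left_eq_add.1 h

/-- the action of the theta functions as a linear map -/
noncomputable def L (a b : Gam) : V τ (b - a) →ₗ[ℂ] (E.tw a A ⟶ E.tw b A) where
  toFun f := (E.Φ.map (f : (⟨a⟩ : Gr τ) ⟶ ⟨b⟩)).app A
  map_add' f g := by
    have h := E.lin (1 : ℂ) (f : (⟨a⟩ : Gr τ) ⟶ ⟨b⟩) g
    rw [one_smul, one_smul] at h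
    rw [← NatTrans.app_add]
    exact congrArg (fun x => NatTrans.app x A) h
  map_smul' r f := by
    have h := E.lin r (f : (⟨a⟩ : Gr τ) ⟶ ⟨b⟩) 0
    rw [map_zero', add_zero, add_zero] at h
    rw [RingHom.id_apply, ← NatTrans.app_smul]
    exact congrArg (fun x => NatTrans.app x A) h

theorem L_comp {a b c : Gam} (f : V τ (b - a)) (g : V τ (c - b)) (h : V τ (c - a))
    (hh : h.1 = g.1 * f.1) : L E A a b f ≫ L E A b c g = L E A a c h := by
  show (E.Φ.map _).app A ≫ (E.Φ.map _).app A = (E.Φ.map _).app A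
  rw [← NatTrans.comp_app, ← Functor.map_comp]
  congr 2
  exact Subtype.ext hh.symm

/-- transport -/
noncomputable def tr {a b : Gam} (h : a = b) : E.tw a A ⟶ E.tw b A :=
  eqToHom (congrArg (fun x => E.tw x A) h)

theorem tr_refl (a : Gam) : tr E A (rfl : a = a) = 𝟙 _ := rfl

theorem tr_tr {a b c : Gam} (h : a = b) (h' : b = c) : tr E A h ≫ tr E A h' = tr E A (h.trans h') := by
  subst h; subst h'; exact Category.id_comp _

theorem L_tr {a b b' : Gam} (h : b = b') (f : V τ (b - a)) (f' : V τ (b' - a)) (hf : f'.1 = f.1) :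
    L E A a b f ≫ tr E A h = L E A a b' f' := by
  subst h
  rw [tr_refl, Category.comp_id]
  congr 1
  exact Subtype.ext hf.symm

theorem tr_L {a a' b : Gam} (h : a' = a) (f : V τ (b - a)) (f' : V τ (b - a')) (hf : f'.1 = f.1) :
    tr E A h ≫ L E A a b f = L E A a' b f' := by
  subst h
  rw [tr_refl, Category.id_comp]
  congr 1
  exact Subtype.ext hf.symm

instance {a b : Gam} (h : a = b) : IsIso (tr E A h) := by unfold tr; infer_instance

variable {g : Gam} (s : E.tw g A ≅ A)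

/-- the shift -/
noncomputable def S (γ : Gam) : E.tw γ A ⟶ E.tw (g + γ) A :=
  (E.Φ.obj ⟨γ⟩).map s.inv ≫ (E.comp g γ).hom.app A

instance (γ : Gam) : IsIso (S E A s γ) := by unfold S; infer_instance

theorem S_L {γ γ' : Gam} (f : V τ (γ' - γ)) (f' : V τ (g + γ' - (g + γ))) (hf : f'.1 = f.1) :
    S E A s γ ≫ L E A (g + γ) (g + γ') f' = L E A γ γ' f ≫ S E A s γ' := by
  have h1 := E.comp_nat g γ γ' f.1 f.2 (hf ▸ f'.2) A
  have h2 := (E.Φ.map (gm f.1 f.2)).naturality s.inv
  have h3 : L E A (g + γ) (g + γ') f' = (E.Φ.map (gm f.1 (hf ▸ f'.2))).app A := by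
    show (E.Φ.map _).app A = _
    congr 2
    exact Subtype.ext hf
  have h4 : L E A γ γ' f = (E.Φ.map (gm f.1 f.2)).app A := rfl
  rw [h3, h4]
  unfold S
  rw [Category.assoc, ← h1, ← Category.assoc, h2, Category.assoc]

theorem S_tr {γ γ' : Gam} (h : γ = γ') (h' : g + γ = g + γ') :
    S E A s γ ≫ tr E A h' = tr E A h ≫ S E A s γ' := by
  subst h
  rw [tr_refl, tr_refl, Category.comp_id, Category.id_comp]

end act

/-! ### The main argument -/

section deg

variable {N : ℕ} [NeZero N]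

theorem char_ne (i : ZMod N) : (ZMod.stdAddChar i : ℂ) ≠ 0 := by
  intro h
  have h1 : (ZMod.stdAddChar (i + -i) : ℂ) = 1 := by rw [add_neg_cancel, AddChar.map_zero_eq_one]
  rw [AddChar.map_add_eq_mul, h, zero_mul] at h1
  exact zero_ne_one h1

/-- the gradings of the powers of the root of unity -/
noncomputable def d (i : ZMod N) : Gam := g0 (Units.mk0 (ZMod.stdAddChar i : ℂ) (char_ne i))

theorem d_c (i : ZMod N) : (d i).c = ZMod.stdAddChar i := rfl

theorem d_add (i j : ZMod N) : d (i + j) = d i + d j :=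
  Gam.ext' rfl (by rw [Gam.c_add, d_c, d_c, d_c, AddChar.map_add_eq_mul])

theorem d_zero : d (0 : ZMod N) = 0 :=
  Gam.ext' rfl (by rw [d_c, Gam.c_zero, AddChar.map_zero_eq_one])

theorem d_inj : Function.Injective (d : ZMod N → Gam) := by
  intro i j h
  have h1 : (d i).c = (d j).c := by rw [h]
  rw [d_c, d_c] at h1
  exact ZMod.injective_stdAddChar h1

theorem d_succ (n : ℕ) : d (1 : ZMod N) + d (n : ZMod N) = d ((n + 1 : ℕ) : ZMod N) := by
  rw [← d_add, Nat.cast_succ, add_comm]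

end deg

section main

variable {C : Type u} [Category.{v} C] [Preadditive C] [Linear ℂ C] [HasZeroObject C]
  [HasShift C ℤ] [∀ n : ℤ, (shiftFunctor C n).Additive] [Pretriangulated C]
variable {τ : ℂ} (E : EA τ C) (A : C) {N : ℕ} [NeZero N] (s : E.tw (d (1 : ZMod N)) A ≅ A)

/-- the iterates of the shift -/
noncomputable def y (μ : ℂ) : ∀ n : ℕ, E.tw 0 A ⟶ E.tw (d (n : ZMod N)) A
  | 0 => tr E A (by rw [Nat.cast_zero, d_zero])
  | n + 1 => μ • (y μ n ≫ S E A s (d (n : ZMod N)) ≫ tr E A (d_succ n))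

theorem y_smul (μ : ℂ) (n : ℕ) : y E A s μ n = μ ^ n • y E A s 1 n := by
  induction n with
  | zero => rw [pow_zero, one_smul]; rfl
  | succ n ih =>
    rw [y, ih, y, one_smul, Linear.smul_comp, smul_smul, pow_succ']

theorem y_iso (n : ℕ) : IsIso (y E A s 1 n) := by
  induction n with
  | zero => rw [y]; infer_instance
  | succ n ih => rw [y, one_smul]; infer_instance

variable {μ : ℂ} (hμ : ∀ h : d ((N : ℕ) : ZMod N) = 0, y E A s μ N ≫ tr E A h = 𝟙 _)

include hμ

theorem y_per (n : ℕ) : ∀ (m : ℕ) (_ : n + N = m) (h : d (n : ZMod N) = d (m : ZMod N)),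
    y E A s μ m = y E A s μ n ≫ tr E A h := by
  induction n with
  | zero =>
    intro m hm h
    have h1 : N = m := by omega
    subst h1
    have h2 : d ((N : ℕ) : ZMod N) = 0 := by rw [ZMod.natCast_self, d_zero]
    have h3 := hμ h2
    rw [y, tr_tr]
    calc y E A s μ N = (y E A s μ N ≫ tr E A h2) ≫ tr E A h2.symm := by
          rw [Category.assoc, tr_tr, tr_refl, Category.comp_id]
      _ = _ := by rw [h3, Category.id_comp]
  | succ n ih =>
    intro m hm h
    obtain ⟨k, rfl⟩ : ∃ k, m = k + 1 := ⟨n + N, by omega⟩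
    have h1 : d (n : ZMod N) = d (k : ZMod N) := by
      have h2 : (k : ZMod N) = n := by
        have h3 : k = n + N := by omega
        rw [h3, Nat.cast_add, ZMod.natCast_self, add_zero]
      rw [h2]
    rw [y, y, ih k (by omega) h1, Linear.smul_comp]
    congr 1
    rw [Category.assoc, Category.assoc, Category.assoc, tr_tr]
    congr 1
    rw [← Category.assoc, ← S_tr E A s h1 (by rw [h1]), Category.assoc, tr_tr]

/-- the same, indexed by `ZMod N` -/
noncomputable def Y (μ : ℂ) (i : ZMod N) : E.tw 0 A ⟶ E.tw (d i) A :=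
  y E A s μ i.val ≫ tr E A (by rw [ZMod.natCast_zmod_val])

theorem y_val (i : ZMod N) (q : ℕ) : ∀ (n : ℕ) (_ : n = i.val + N * q) (h : d (n : ZMod N) = d i),
    y E A s μ n ≫ tr E A h = Y E A s μ i := by
  induction q with
  | zero =>
    intro n hn h
    rw [mul_zero, add_zero] at hn
    subst hn
    rfl
  | succ q ih =>
    intro n hn h
    have h1 : n = i.val + N * q + N := by rw [hn]; ring
    have h2 : (n : ZMod N) = ((i.val + N * q : ℕ) : ZMod N) := by
      rw [h1]; simp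
    rw [y_per E A s hμ (i.val + N * q) n h1.symm (by rw [h2]), Category.assoc, tr_tr]
    exact ih _ rfl (by rw [← h, h2])

theorem Y_step (i : ZMod N) (h : d (1 : ZMod N) + d i = d (i + 1)) :
    μ • (Y E A s μ i ≫ S E A s (d i) ≫ tr E A h) = Y E A s μ (i + 1) := by
  have h0 : ((i.val + 1 : ℕ) : ZMod N) = i + 1 := by
    rw [Nat.cast_succ, ZMod.natCast_zmod_val]
  obtain ⟨q, hq⟩ : ∃ q, i.val + 1 = (i + 1).val + N * q := by
    have h1 := Nat.mod_add_div (i.val + 1) N
    refine ⟨(i.val + 1) / N, ?_⟩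
    have h2 : (i + 1).val = (i.val + 1) % N := by
      rw [← h0, ZMod.val_natCast]
    rw [h2, h1]
  rw [← y_val E A s hμ (i + 1) q (i.val + 1) hq (by rw [h0]), y, Linear.smul_comp]
  congr 1
  unfold Y
  have h3 : d ((i.val : ℕ) : ZMod N) = d i := by rw [ZMod.natCast_zmod_val]
  rw [Category.assoc, Category.assoc, Category.assoc, tr_tr]
  congr 1
  rw [← Category.assoc, ← S_tr E A s h3 (by rw [h3]), Category.assoc, tr_tr]

variable {Γ : Gam} (a : ZMod N → ℂ) (θ : ZMod N → ℂ → ℂ) (hθ : ∀ j, θ j ∈ V τ (Γ - d j))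
  (hrel : ∑ j, a j • (Y E A s μ j ≫ L E A (d j) Γ ⟨θ j, hθ j⟩) = 0)

include hrel

theorem rel (i : ZMod N) : ∀ (f : ∀ l, V τ (Γ + d i - d l)) (_ : ∀ l, (f l).1 = θ (l - i)),
    ∑ l, a (l - i) • (Y E A s μ l ≫ L E A (d l) (Γ + d i) (f l)) = 0 := by
  obtain ⟨n, rfl⟩ := ZMod.natCast_zmod_surjective i
  induction n with
  | zero =>
    intro f hf
    have h0 : Γ = Γ + d ((0 : ℕ) : ZMod N) := by rw [Nat.cast_zero, d_zero, add_zero]
    have h1 := congrArg (fun x => x ≫ tr E A h0) hrel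
    simp only [zero_comp, Preadditive.sum_comp, Linear.smul_comp, Category.assoc] at h1
    rw [← h1]
    refine Finset.sum_congr rfl fun l _ => ?_
    rw [L_tr E A h0 _ (f l) (by rw [hf l, Nat.cast_zero, sub_zero]),
      show l - ((0 : ℕ) : ZMod N) = l by rw [Nat.cast_zero, sub_zero]]
  | succ n ih =>
    intro f hf
    have e0 : Γ + d (n : ZMod N) + d (1 : ZMod N) = Γ + d ((n + 1 : ℕ) : ZMod N) := by
      rw [← d_succ]; abel
    have e1 : d (1 : ZMod N) + (Γ + d (n : ZMod N)) = Γ + d ((n + 1 : ℕ) : ZMod N) := by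
      rw [← d_succ]; abel
    have key : ∀ l : ZMod N, (θ (l - (n : ZMod N))) ∈ V τ (Γ + d (n : ZMod N) - d l) := by
      intro l
      have h1 := hθ (l - (n : ZMod N))
      have h2 : Γ - d (l - (n : ZMod N)) = Γ + d (n : ZMod N) - d l := by
        have h3 : d l = d (l - (n : ZMod N)) + d (n : ZMod N) := by rw [← d_add, sub_add_cancel]
        rw [h3]; abel
      rwa [h2] at h1
    have h1 := ih (fun l => ⟨θ (l - (n : ZMod N)), key l⟩) (fun l => rfl)
    have h2 := congrArg (fun x => μ • (x ≫ S E A s (Γ + d (n : ZMod N)) ≫ tr E A e1)) h1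
    simp only [zero_comp, smul_zero, Preadditive.sum_comp, Linear.smul_comp, Category.assoc] at h2
    rw [← h2, Finset.smul_sum, ← Equiv.sum_comp (Equiv.addRight (1 : ZMod N))]
    refine Finset.sum_congr rfl fun l _ => ?_
    rw [Equiv.coe_addRight]
    have h3 : l + 1 - ((n + 1 : ℕ) : ZMod N) = l - (n : ZMod N) := by push_cast; ring
    have h4 : d (1 : ZMod N) + d l = d (l + 1) := by rw [d_add, add_comm]
    rw [h3, smul_comm]
    congr 1
    rw [← Y_step E A s hμ l h4, Linear.smul_comp]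
    congr 1
    rw [Category.assoc, Category.assoc]
    congr 1
    have k1 : (f (l + 1)).1 = θ (l - (n : ZMod N)) := by rw [hf, h3]
    have m1 : (f (l + 1)).1 ∈ V τ (Γ + d ((n + 1 : ℕ) : ZMod N) - (d (1 : ZMod N) + d l)) := by
      rw [h4]; exact (f (l + 1)).2
    have m2 : (f (l + 1)).1 ∈ V τ (d (1 : ZMod N) + (Γ + d (n : ZMod N)) - (d (1 : ZMod N) + d l)) := by
      rw [e1]; exact m1
    rw [tr_L E A h4 (f (l + 1)) ⟨(f (l + 1)).1, m1⟩ rfl,
      ← L_tr E A e1 ⟨(f (l + 1)).1, m2⟩ ⟨(f (l + 1)).1, m1⟩ rfl, ← Category.assoc,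
      S_L E A s ⟨θ (l - (n : ZMod N)), key l⟩ ⟨(f (l + 1)).1, m2⟩ k1, Category.assoc]

theorem final : ∃ (γ : Gam) (hf : (Matrix.of fun i m : ZMod N => a (m - i) • θ (m - i)).det ∈
    V τ (γ - 0)), E.act _ hf A = 0 := by
  set M : Matrix (ZMod N) (ZMod N) (ℂ → ℂ) :=
    Matrix.of fun i m : ZMod N => a (m - i) • θ (m - i) with hM
  set α : ZMod N → Gam := fun i => Γ + d i with hα
  have m0 : ∀ i m, θ (m - i) ∈ V τ (α i - d m) := by
    intro i m
    have h1 := hθ (m - i)
    have h2 : Γ - d (m - i) = α i - d m := by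
      have h3 : d m = d (m - i) + d i := by rw [← d_add, sub_add_cancel]
      show Γ - d (m - i) = Γ + d i - d m
      rw [h3]
      generalize d (m - i) = x
      abel
    rwa [h2] at h1
  have m1 : ∀ i m, M i m ∈ V τ (α i - d m) := fun i m => Submodule.smul_mem _ _ (m0 i m)
  set D : Gam := ∑ i, α i - ∑ j : ZMod N, d j + d (0 : ZMod N) with hD
  have m2 : ∀ i, M.adjugate 0 i ∈ V τ (D - α i) := fun i => adj_mem M α d m1 0 i
  have m3 : ∀ i m, M.adjugate 0 i * M i m ∈ V τ (D - d m) := by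
    intro i m
    have h1 := V_mul (m2 i) (m1 i m)
    rwa [sub_add_sub_cancel] at h1
  have r1 : ∀ i, ∑ m, Y E A s μ m ≫ L E A (d m) (α i) ⟨M i m, m1 i m⟩ = 0 := by
    intro i
    rw [← rel E A s hμ a θ hθ hrel i (fun m => ⟨θ (m - i), m0 i m⟩) (fun m => rfl)]
    refine Finset.sum_congr rfl fun m _ => ?_
    rw [← Linear.comp_smul, ← map_smul]
    rfl
  have r2 : ∑ i, ∑ m, Y E A s μ m ≫ L E A (d m) D ⟨M.adjugate 0 i * M i m, m3 i m⟩ = 0 := by
    refine Finset.sum_eq_zero fun i _ => ?_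
    have h1 := congrArg (fun x => x ≫ L E A (α i) D ⟨M.adjugate 0 i, m2 i⟩) (r1 i)
    simp only [zero_comp, Preadditive.sum_comp, Category.assoc] at h1
    rw [← h1]
    refine Finset.sum_congr rfl fun m _ => ?_
    rw [L_comp E A ⟨M i m, m1 i m⟩ ⟨M.adjugate 0 i, m2 i⟩ ⟨M.adjugate 0 i * M i m, m3 i m⟩ rfl]
  rw [Finset.sum_comm] at r2
  have r3 : ∀ m : ZMod N, ∑ i, Y E A s μ m ≫ L E A (d m) D ⟨M.adjugate 0 i * M i m, m3 i m⟩ =
      Y E A s μ m ≫ L E A (d m) D (∑ i, ⟨M.adjugate 0 i * M i m, m3 i m⟩) := by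
    intro m
    rw [map_sum, Preadditive.comp_sum]
  have r4 : ∀ m : ZMod N, ((∑ i, ⟨M.adjugate 0 i * M i m, m3 i m⟩ : V τ (D - d m)) : ℂ → ℂ) =
      (M.adjugate * M) 0 m := by
    intro m
    rw [Matrix.mul_apply, AddSubmonoidClass.coe_finsetSum]
  have r5 : ∀ m : ZMod N, m ≠ 0 → (∑ i, ⟨M.adjugate 0 i * M i m, m3 i m⟩ : V τ (D - d m)) = 0 := by
    intro m hm
    refine Subtype.ext ?_
    rw [r4, Matrix.adjugate_mul, Matrix.smul_apply, Matrix.one_apply_ne hm.symm, smul_zero]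
    rfl
  rw [Finset.sum_congr rfl fun m _ => r3 m, Finset.sum_eq_single 0
    (fun m _ hm => by rw [r5 m hm, map_zero, comp_zero])
    (fun h => absurd (Finset.mem_univ _) h)] at r2
  have r6 : ((∑ i, ⟨M.adjugate 0 i * M i 0, m3 i 0⟩ : V τ (D - d (0 : ZMod N))) : ℂ → ℂ) = M.det := by
    rw [r4, Matrix.adjugate_mul, Matrix.smul_apply, Matrix.one_apply_eq, smul_eq_mul, mul_one]
  have hdet : M.det ∈ V τ (D - d (0 : ZMod N)) := by
    rw [← r6]; exact (∑ i, ⟨M.adjugate 0 i * M i 0, m3 i 0⟩ : V τ (D - d (0 : ZMod N))).2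
  have r7 : (∑ i, ⟨M.adjugate 0 i * M i 0, m3 i 0⟩ : V τ (D - d (0 : ZMod N))) = ⟨M.det, hdet⟩ :=
    Subtype.ext r6
  rw [r7] at r2
  have hdet' : M.det ∈ V τ (D - 0) := by rwa [d_zero] at hdet
  refine ⟨D, hdet', ?_⟩
  have h0 : (0 : Gam) = d (0 : ZMod N) := d_zero.symm
  show L E A 0 D ⟨M.det, hdet'⟩ = 0
  rw [← tr_L E A h0 ⟨M.det, hdet⟩ ⟨M.det, hdet'⟩ rfl]
  have r8 : Y E A s μ 0 = tr E A h0 := by
    have h1 := y_val E A s hμ 0 0 0 (by simp) (by simp)
    rw [← h1, y, tr_tr]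
  rw [← r8]
  exact r2

end main

theorem deg_one {γ : Gam} (h : γ.1 = 1) : ∃ a, gu a = γ := by
  refine ⟨Complex.log (-γ.c) / (2 * Real.pi * I), Gam.ext' h.symm ?_⟩
  rw [BETH.gu_c, BETH.e, mul_div_cancel₀ _ BETH.two_pi_ne, exp_log (neg_ne_zero.2 (Gam.c_ne γ)),
    neg_neg]

theorem u_ne' {τ : ℂ} (hτ : 0 < τ.im) {u : ℂ → ℂ → ℂ} (hu : TH τ u) (a : ℂ) : u a ≠ 0 := by
  intro h
  have h1 : u a (a + 1 / 2) = 0 := by rw [h]; rfl
  rw [hu.zero] at h1
  obtain ⟨m, n, h2⟩ := h1
  have h3 : (1 / 2 : ℂ) = m + n * τ := by linear_combination h2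
  have h4 := congrArg Complex.im h3
  simp at h4
  rcases h4 with h4 | h4
  · subst h4
    have h5 := congrArg Complex.re h3
    simp at h5
    have h6 : (2 * m : ℝ) = 1 := by linarith
    have h7 : (2 * m : ℤ) = 1 := by exact_mod_cast h6
    omega
  · exact hτ.ne' h4

theorem p_NORM : S_NORM.{v, u} := by
  intro C _ _ _ _ _ _ _ _ τ hτ u hu E A hEnd hfin hinv
  by_cases hid : 𝟙 (E.tw 0 A) = 0
  · have hm : u 0 ∈ V τ (gu 0 - 0) := by rw [sub_zero]; exact hu.mem 0
    refine ⟨gu 0, u 0, hm, u_ne' hτ hu 0, ?_⟩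
    rw [← Category.id_comp (E.act (u 0) hm A), hid, zero_comp]
  have hEnd0 : ∀ f : E.tw 0 A ⟶ E.tw 0 A, ∃ r : ℂ, f = r • 𝟙 _ := by
    intro f
    obtain ⟨r, hr⟩ := hEnd (E.zero.inv.app A ≫ f ≫ E.zero.hom.app A)
    refine ⟨r, ?_⟩
    have h1 := congrArg (fun x => E.zero.hom.app A ≫ x ≫ E.zero.inv.app A) hr
    simp only [Category.assoc, Iso.hom_inv_id_app, Category.comp_id,
      Iso.hom_inv_id_app_assoc, Linear.comp_smul, Linear.smul_comp] at h1
    rw [h1]
    congr 1
    erw [Category.id_comp]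
    exact E.zero.hom_inv_id_app A
  have hfin0 : ∀ B : C, Module.Finite ℂ (E.tw 0 A ⟶ B) := by
    intro B
    have := hfin B
    exact Module.Finite.equiv
      (Linear.homCongr ℂ (show A ≅ E.tw 0 A from (E.zero.app A).symm) (Iso.refl B))
  set Γ : Gam := gu 0 with hΓ
  have := hfin0 (E.tw Γ A)
  set N : ℕ := Module.finrank ℂ (E.tw 0 A ⟶ E.tw Γ A) + 1 with hN
  have : NeZero N := ⟨by omega⟩
  obtain ⟨s⟩ := hinv (Units.mk0 (ZMod.stdAddChar (1 : ZMod N) : ℂ) (char_ne 1))
  have hdN : d ((N : ℕ) : ZMod N) = 0 := by rw [ZMod.natCast_self, d_zero]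
  obtain ⟨c, hc⟩ := hEnd0 (y E A s 1 N ≫ tr E A hdN)
  have hc0 : c ≠ 0 := by
    rintro rfl
    rw [zero_smul] at hc
    have := y_iso E A s N
    apply hid
    calc 𝟙 (E.tw 0 A) = (y E A s 1 N ≫ tr E A hdN) ≫ CategoryTheory.inv (y E A s 1 N ≫ tr E A hdN) :=
          (IsIso.hom_inv_id _).symm
      _ = 0 ≫ CategoryTheory.inv (y E A s 1 N ≫ tr E A hdN) :=
          congrArg (fun x => x ≫ CategoryTheory.inv (y E A s 1 N ≫ tr E A hdN)) hc
      _ = 0 := zero_comp
  obtain ⟨μ, hμ'⟩ := IsAlgClosed.exists_pow_nat_eq c⁻¹ (Nat.pos_of_ne_zero (NeZero.ne N))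
  have hμ : ∀ h : d ((N : ℕ) : ZMod N) = 0, y E A s μ N ≫ tr E A h = 𝟙 _ := by
    intro h
    rw [y_smul, Linear.smul_comp, hc, smul_smul, hμ', inv_mul_cancel₀ hc0, one_smul]
  have hdeg : ∀ j : ZMod N, ∃ a, gu a = Γ - d j := fun j => deg_one (by
    show (1 : ℤ) - 0 = 1
    rw [sub_zero])
  choose b hb using hdeg
  have hθ : ∀ j, u (b j) ∈ V τ (Γ - d j) := fun j => by rw [← hb j]; exact hu.mem _
  have hdep : ¬ LinearIndependent ℂ
      (fun j : ZMod N => Y E A s μ j ≫ L E A (d j) Γ ⟨u (b j), hθ j⟩) := by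
    intro h
    have h1 := h.fintype_card_le_finrank
    rw [ZMod.card] at h1
    omega
  rw [Fintype.not_linearIndependent_iff] at hdep
  obtain ⟨a, ha, j₀, hj₀⟩ := hdep
  obtain ⟨γ, hf, hfin⟩ := final E A s hμ a (fun j => u (b j)) hθ ha
  refine ⟨γ, _, hf, ?_, hfin⟩
  have hind : LinearIndependent ℂ (fun j : ZMod N => u (b j)) :=
    indep 1 (fun j : ZMod N => Γ - d j) (fun i j hij => d_inj (sub_right_injective hij))
      (fun j => by show (1 : ℤ) - 0 = 1; rw [sub_zero]) _ hθ (fun j => u_ne' hτ hu _)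
  obtain ⟨z, hz⟩ := prod_ne Finset.univ
    (fun (k : ZMod N) => ∑ j, (a j * ZMod.stdAddChar (j * k)) • u (b j)) (fun k _ => by
      have h1 : ∀ j, Differentiable ℂ ((a j * ZMod.stdAddChar (j * k)) • u (b j)) :=
        fun j => (hθ j).1.const_smul _
      exact Differentiable.sum fun j _ => h1 j) (fun k _ => by
      by_contra hcon
      push Not at hcon
      have h1 := Fintype.linearIndependent_iff.1 hind _ (funext hcon) j₀
      exact (mul_ne_zero hj₀ (char_ne _)) h1)
  intro h0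
  have h1 := circ_det (fun j => a j * u (b j) z) (fun k => by
    have h2 := hz k (Finset.mem_univ k)
    simp only [Finset.sum_apply, Pi.smul_apply, smul_eq_mul] at h2
    intro h3
    apply h2
    rw [← h3]
    refine Finset.sum_congr rfl fun j _ => ?_
    ring)
  apply h1
  have h2 := congrFun h0 z
  have h3 := RingHom.map_det (Pi.evalRingHom (fun _ : ℂ => ℂ) z)
    (Matrix.of fun i m : ZMod N => a (m - i) • u (b (m - i)))
  rw [Pi.evalRingHom_apply, h2] at h3
  have h4 : (Pi.evalRingHom (fun _ : ℂ => ℂ) z).mapMatrix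
      (Matrix.of fun i m : ZMod N => a (m - i) • u (b (m - i))) =
      Matrix.of fun i m : ZMod N => a (m - i) * u (b (m - i)) z := by
    ext i m
    rfl
  rw [h4] at h3
  exact h3.symm

end Run7.h299.BENORM
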