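import Pool.Agent.Run7.h71.CE.Stm
import Pool.Agent.Run7.h576.CD.JETS

/-! Piece JETS0 of project CE (helper71), adapted by helper299 from helper576's piece JETS of project CD:
the jets of `F (X + s ζ(X))`. -/

set_option autoImplicit false

namespace Pool.Agent.Run7.h71.CE

open Set Filter Topology
open scoped ContDiff
open Pool.Agent.Run7.h71.CD Pool.Agent.Run7.h576.CD

theorem core0 (hTK : S_TK) (F : ℝ × ℝ → ℝ) (ζ : E3 → E3) (O : Set E3) (hO : IsOpen O)
    (hlft : ContDiffOn ℝ ∞ (lft F) O)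
    (hhom : ∀ X ∈ O, ∀ r : ℝ, 0 < r → lft F (r • X) = lft F X)
    (hEul : ∀ X ∈ O, fderiv ℝ (lft F) X X = 0) (hpos : ∀ X ∈ O, 0 < X 2)
    (hsm : ContDiffOn ℝ ∞ ζ O) (hhomog : ∀ X ∈ O, ∀ r : ℝ, 0 < r → ζ (r • X) = r • ζ X)
    (htwo : ∀ X ∈ O, iteratedDeriv 2 (fun s : ℝ => lft F (X + s • ζ X)) 0 = 2)
    (hone : ∀ X ∈ O, iteratedDeriv 1 (fun s : ℝ => lft F (X + s • ζ X)) 0 = 0)
    (hthree : ∀ X ∈ O, iteratedDeriv 3 (fun s : ℝ => lft F (X + s • ζ X)) 0 = 0)
    (d : Fin 3 → Derivation ℝ (Sm O) (Sm O)) (hd : IsD O d) :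
    ∃ (Xc Zc ν : Fin 3 → Sm O) (M : ℕ → Fin 3 → Sm O),
      (∀ i x, (Xc i).1 x = x.1 i) ∧ (∀ i x, (Zc i).1 x = ζ x.1 i) ∧
      (∀ j x, (M 0 j).1 x = fderiv ℝ (lft F) x.1 (Pi.single j 1)) ∧ Jets0 d Xc Zc ν M ∧
      ∀ k ≤ 6, ∀ x, (dot (M k) Zc).1 x =
        iteratedDeriv (k + 1) (fun s : ℝ => lft F (x.1 + s • ζ x.1)) 0 := by
  have hGs : ∀ j, ContDiffOn ℝ ∞ (G F j) O := fun j =>
    (hlft.fderiv_of_isOpen hO (by simp)).clm_apply contDiffOn_const
  have hζi : ∀ i, ContDiffOn ℝ ∞ (fun X => ζ X i) O := fun i => contDiffOn_pi.mp hsm i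
  -- the open set `W`
  have hmap : ContDiffOn ℝ ∞ (fun z : E3 × ℝ => z.1 + z.2 • ζ z.1) (O ×ˢ univ) :=
    contDiffOn_fst.add (contDiffOn_snd.smul (hsm.comp contDiffOn_fst (fun z hz => hz.1)))
  set W : Set (E3 × ℝ) := (O ×ˢ univ) ∩ (fun z : E3 × ℝ => z.1 + z.2 • ζ z.1) ⁻¹' O with hWdef
  have hW : IsOpen W := hmap.continuousOn.isOpen_inter_preimage (hO.prod isOpen_univ) hO
  have hW0 : ∀ X ∈ O, (X, (0 : ℝ)) ∈ W := fun X hX => ⟨⟨hX, mem_univ _⟩, by simpa using hX⟩
  have hΦ : ∀ g : E3 → ℝ, ContDiffOn ℝ ∞ g O →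
      ContDiffOn ℝ ∞ (fun z : E3 × ℝ => g (z.1 + z.2 • ζ z.1)) W := fun g hg =>
    hg.comp (hmap.mono inter_subset_left) (fun z hz => hz.2)
  have hT := fun (g : E3 → ℝ) (hg : ContDiffOn ℝ ∞ g O) (k : ℕ) =>
    hTK O W (fun z : E3 × ℝ => g (z.1 + z.2 • ζ z.1)) hO hW hW0 (hΦ g hg) k
  have hTs : ∀ (g : E3 → ℝ) (_ : ContDiffOn ℝ ∞ g O) (k : ℕ),
      ContDiffOn ℝ ∞ (fun X => iteratedDeriv k (fun s : ℝ => g (X + s • ζ X)) 0) O :=
    fun g hg k => (hT g hg k).1
  let Xc : Fin 3 → Sm O := fun i => mk (fun X => X i) (by fun_prop)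
  let Zc : Fin 3 → Sm O := fun i => mk (fun X => ζ X i) (hζi i)
  let ν : Fin 3 → Sm O := fun i => (-(1 / 2) : ℝ) • ∑ j, Zc j * d j (Zc i)
  let M : ℕ → Fin 3 → Sm O := fun k j =>
    mk (fun X => iteratedDeriv k (fun s : ℝ => G F j (X + s • ζ X)) 0) (hTs (G F j) (hGs j) k)
  have eXc : ∀ i (x : O), ev x (Xc i) = x.1 i := fun i x => rfl
  have eZc : ∀ i (x : O), ev x (Zc i) = ζ x.1 i := fun i x => rfl
  have eM : ∀ k j (x : O), ev x (M k j) = iteratedDeriv k (fun s : ℝ => G F j (x.1 + s • ζ x.1)) 0 :=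
    fun k j x => rfl
  have eD : ∀ (j : Fin 3) (g : E3 → ℝ) (hg : ContDiffOn ℝ ∞ g O) (x : O),
      ev x (d j (mk g hg)) = fderiv ℝ g x (Pi.single j 1) := hd.eq
  -- contraction with `ζ`
  have hcon : ∀ k (x : O), ev x (dot (M k) Zc) =
      iteratedDeriv (k + 1) (fun s : ℝ => lft F (x.1 + s • ζ x.1)) 0 := by
    intro k x
    rw [iter_succ hO hlft hGs x.2 k]
    unfold dot
    rw [map_sum]
    apply Finset.sum_congr rfl
    intro i _
    rw [map_mul, eM, eZc, mul_comm]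
    rfl
  have hcon' : ∀ k, dot (M k) Zc =
      mk (fun X => iteratedDeriv (k + 1) (fun s : ℝ => lft F (X + s • ζ X)) 0) (hTs (lft F) hlft (k + 1)) :=
    fun k => ext_ev fun x => hcon k x
  have hM0 : ∀ j (x : O), ev x (M 0 j) = G F j x.1 := by
    intro j x
    rw [eM, iteratedDeriv_zero]
    simp
  have hM1 : ∀ j, ∑ i, Zc i * d i (M 0 j) = M 1 j := by
    intro j
    apply ext_ev
    intro x
    have e0 : M 0 j = mk (G F j) (hGs j) := ext_ev fun x => hM0 j x
    rw [map_sum, eM, iteratedDeriv_one, deriv_line hO (hGs j) (x := x.1) (s := 0) (by simp)]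
    apply Finset.sum_congr rfl
    intro i _
    rw [map_mul, eZc, e0, eD]
    simp
  have hf1 : dot (M 0) Zc = 0 := by
    apply ext_ev
    intro x
    rw [hcon, map_zero]
    exact hone x.1 x.2
  have hf2 : dot (M 1) Zc = 2 := by
    apply ext_ev
    intro x
    rw [hcon, map_ofNat]
    exact htwo x.1 x.2
  have hZζ : ∀ i, ∑ j, Zc j * d j (Zc i) = -2 * ν i := by
    intro i
    change _ = -2 * ((-(1 / 2) : ℝ) • ∑ j, Zc j * d j (Zc i))
    rw [mul_smul_comm, ← smul_mul_assoc]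
    have : (-(1 / 2) : ℝ) • (-2 : Sm O) = 1 := by
      apply ext_ev
      intro x
      rw [map_smul, map_neg, map_ofNat, map_one]
      norm_num
    rw [this, one_mul]
  have hdν : dot (M 0) ν = 1 := by
    -- differentiate `dot (M 0) ζ = 0` along `ζ`
    have h1 : ∑ j, Zc j * d j (dot (M 0) Zc) = 0 := by
      rw [hf1]
      simp
    have h2 : ∑ j, Zc j * d j (dot (M 0) Zc) =
        dot (M 1) Zc + ∑ i, M 0 i * ∑ j, Zc j * d j (Zc i) := by
      have h3 : dot (M 1) Zc = ∑ i, (∑ j, Zc j * d j (M 0 i)) * Zc i := by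
        unfold dot
        exact Finset.sum_congr rfl fun i _ => by rw [hM1]
      rw [h3]
      unfold dot
      simp only [map_sum, Derivation.leibniz, smul_eq_mul, Finset.mul_sum, Finset.sum_mul]
      rw [Finset.sum_comm, ← Finset.sum_add_distrib]
      apply Finset.sum_congr rfl
      intro i _
      rw [← Finset.sum_add_distrib]
      apply Finset.sum_congr rfl
      intro j _
      ring
    rw [h1, hf2] at h2
    have h4 : ∑ i, M 0 i * ∑ j, Zc j * d j (Zc i) = -2 * dot (M 0) ν := by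
      unfold dot
      rw [Finset.mul_sum]
      exact Finset.sum_congr rfl fun i _ => by rw [hZζ]; ring
    rw [h4] at h2
    apply ncancel 2 (by norm_num)
    push_cast
    linear_combination h2
  refine ⟨Xc, Zc, ν, M, fun i x => rfl, fun i x => rfl, fun j x => hM0 j x, ?_, fun k _ x => hcon k x⟩
  refine ⟨hd.comm, ?_, ?_, hZζ, ?_, hM1, ?_, ?_, ?_, hf1, hf2, ?_⟩
  · -- dX
    intro i j
    apply ext_ev
    intro x
    have h1 : HasFDerivAt (fun X : E3 => X i) (ContinuousLinearMap.proj (R := ℝ) i) x.1 :=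
      (ContinuousLinearMap.proj (R := ℝ) (φ := fun _ : Fin 3 => ℝ) i).hasFDerivAt
    rw [eD, h1.fderiv]
    by_cases h : i = j
    · subst h
      simp
    · rw [if_neg h, map_zero]
      simp [Pi.single_apply, h]
  · -- Eζ
    intro i
    apply ext_ev
    intro x
    rw [map_sum, eZc]
    have h1 : ∑ j, ev x (Xc j * d j (Zc i)) = fderiv ℝ (fun X => ζ X i) x.1 x.1 := by
      rw [fderiv_sum]
      apply Finset.sum_congr rfl
      intro j _
      rw [map_mul, eXc, eD]
    rw [h1]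
    have h2 : HasDerivAt (fun r : ℝ => r • x.1) x.1 1 := by
      have := (hasDerivAt_id (1 : ℝ)).smul_const x.1
      simpa using this
    have h3 : HasFDerivAt (fun X => ζ X i) (fderiv ℝ (fun X => ζ X i) x.1) ((1 : ℝ) • x.1) := by
      rw [one_smul]
      exact (((hζi i).contDiffAt (hO.mem_nhds x.2)).differentiableAt (by simp)).hasFDerivAt
    have h4 := h3.comp_hasDerivAt (1 : ℝ) h2
    have h5 : HasDerivAt (fun r : ℝ => r * ζ x.1 i) (ζ x.1 i) 1 := by
      have := (hasDerivAt_id (1 : ℝ)).mul_const (ζ x.1 i)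
      simpa using this
    have h6 : (fun r : ℝ => r * ζ x.1 i) =ᶠ[𝓝 1] ((fun X => ζ X i) ∘ fun r : ℝ => r • x.1) := by
      filter_upwards [lt_mem_nhds (show (0 : ℝ) < 1 by norm_num)] with r hr
      simp [hhomog x.1 x.2 r hr]
    exact (h4.congr_of_eventuallyEq h6).unique h5
  · -- det
    apply isUnit_of_ne
    intro x h0
    have h1 := RingHom.map_det (ev x : Sm O →+* ℝ) (Matrix.of ![Xc, Zc, ν])
    have h2 : ((ev x : Sm O →+* ℝ).mapMatrix (Matrix.of ![Xc, Zc, ν])).det = 0 := by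
      rw [← h1]
      exact h0
    obtain ⟨v, hv0, hv⟩ := Matrix.exists_vecMul_eq_zero_iff.mpr h2
    have h3 : ∀ i, v 0 * x.1 i + v 1 * ζ x.1 i + v 2 * ev x (ν i) = 0 := by
      intro i
      have := congrFun hv i
      simpa [Matrix.vecMul, dotProduct, Fin.sum_univ_three, eXc, eZc] using this
    have gX : ∑ i, G F i x.1 * x.1 i = 0 := by
      have := hEul x.1 x.2
      rw [fderiv_sum] at this
      rw [← this]
      exact Finset.sum_congr rfl fun i _ => mul_comm _ _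
    have gZ : ∑ i, G F i x.1 * ζ x.1 i = 0 := by
      have := congrArg (ev x) hf1
      unfold dot at this
      rw [map_sum, map_zero] at this
      rw [← this]
      exact Finset.sum_congr rfl fun i _ => by rw [map_mul, hM0, eZc]
    have gN : ∑ i, G F i x.1 * ev x (ν i) = 1 := by
      have := congrArg (ev x) hdν
      unfold dot at this
      rw [map_sum, map_one] at this
      rw [← this]
      exact Finset.sum_congr rfl fun i _ => by rw [map_mul, hM0]
    have hv2 : v 2 = 0 := by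
      have e : ∑ i, G F i x.1 * (v 0 * x.1 i + v 1 * ζ x.1 i + v 2 * ev x (ν i)) = 0 :=
        Finset.sum_eq_zero fun i _ => by rw [h3 i, mul_zero]
      have e' : ∑ i, G F i x.1 * (v 0 * x.1 i + v 1 * ζ x.1 i + v 2 * ev x (ν i)) =
          v 0 * ∑ i, G F i x.1 * x.1 i + v 1 * ∑ i, G F i x.1 * ζ x.1 i +
            v 2 * ∑ i, G F i x.1 * ev x (ν i) := by
        simp only [Finset.mul_sum, ← Finset.sum_add_distrib]
        exact Finset.sum_congr rfl fun i _ => by ring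
      rw [e', gX, gZ, gN] at e
      linarith
    have hx2 : 0 < x.1 2 := hpos x.1 x.2
    have hv1 : v 1 ≠ 0 := by
      intro h
      have := h3 2
      rw [h, hv2] at this
      have hv00 : v 0 = 0 := by
        rcases mul_eq_zero.mp (by linarith : v 0 * x.1 2 = 0) with h' | h'
        · exact h'
        · exact absurd h' hx2.ne'
      apply hv0
      ext i
      fin_cases i
      · exact hv00
      · exact h
      · exact hv2
    have hζ : ζ x.1 = (-(v 0 / v 1)) • x.1 := by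
      ext i
      have := h3 i
      rw [hv2] at this
      simp only [Pi.smul_apply, smul_eq_mul]
      field_simp
      linarith
    have hconst : (fun s : ℝ => lft F (x.1 + s • ζ x.1)) =ᶠ[𝓝 0] fun _ => lft F x.1 := by
      have hc : ContinuousAt (fun s : ℝ => 1 + s * (-(v 0 / v 1))) 0 := by fun_prop
      have hpos : ∀ᶠ s in 𝓝 (0 : ℝ), 0 < 1 + s * (-(v 0 / v 1)) :=
        hc.eventually (lt_mem_nhds (by simp))
      filter_upwards [hpos] with s hs
      have e : x.1 + s • ζ x.1 = (1 + s * (-(v 0 / v 1))) • x.1 := by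
        rw [hζ, smul_smul, add_smul, one_smul]
      rw [e]
      exact hhom x.1 x.2 _ hs
    have h4 := htwo x.1 x.2
    rw [hconst.iteratedDeriv_eq 2, iteratedDeriv_const] at h4
    norm_num at h4
  · -- X0
    apply ext_ev
    intro x
    unfold dot
    rw [map_sum, map_zero]
    have := hEul x.1 x.2
    rw [fderiv_sum] at this
    rw [← this]
    exact Finset.sum_congr rfl fun i _ => by rw [map_mul, hM0, eXc, mul_comm]; rfl
  · -- XM
    intro k _
    apply ext_ev
    intro x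
    have h1 : (fun s : ℝ => ∑ i, (x.1 i * G F i (x.1 + s • ζ x.1) + ζ x.1 i * (s * G F i (x.1 + s • ζ x.1))))
        =ᶠ[𝓝 0] fun _ => 0 := by
      filter_upwards [ev_mem hO x.2] with s hs
      have := hEul _ hs
      rw [fderiv_sum] at this
      rw [← this]
      apply Finset.sum_congr rfl
      intro i _
      simp only [Pi.add_apply, Pi.smul_apply, smul_eq_mul]
      unfold G
      ring
    have h2 := h1.iteratedDeriv_eq (k + 1)
    have hc : ∀ i, ContDiffAt ℝ ((k + 1 : ℕ) : WithTop ℕ∞) (fun s : ℝ => G F i (x.1 + s • ζ x.1)) 0 :=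
      fun i => cd_nat hO (hGs i) x.2 (k + 1)
    have hc1 : ∀ i, ContDiffAt ℝ ((k + 1 : ℕ) : WithTop ℕ∞) (fun s : ℝ => x.1 i * G F i (x.1 + s • ζ x.1)) 0 :=
      fun i => contDiffAt_const.mul (hc i)
    have hc2 : ∀ i, ContDiffAt ℝ ((k + 1 : ℕ) : WithTop ℕ∞)
        (fun s : ℝ => ζ x.1 i * (s * G F i (x.1 + s • ζ x.1))) 0 :=
      fun i => contDiffAt_const.mul (contDiffAt_id.mul (hc i))
    rw [iteratedDeriv_fun_sum (fun i _ => (hc1 i).add (hc2 i)), iteratedDeriv_const, if_neg (by omega)] at h2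
    rw [map_zero, ← h2, map_add, map_mul]
    unfold dot
    rw [map_sum, map_sum, Finset.mul_sum, ← Finset.sum_add_distrib]
    apply Finset.sum_congr rfl
    intro i _
    rw [iteratedDeriv_fun_add (hc1 i) (hc2 i), iteratedDeriv_const_mul_field, iteratedDeriv_const_mul_field,
      iter_mul_id _ (cd_at hO (hGs i) x.2), map_mul, map_mul, eM, eM, eXc, eZc, map_natCast]
    ring
  · -- dM
    intro k _ j
    apply ext_ev
    intro x
    rw [hcon', eD, (hT (lft F) hlft (k + 1)).2 x.1 x.2 (Pi.single j 1)]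
    have hζd : HasFDerivAt ζ (fderiv ℝ ζ x.1) x.1 :=
      ((hsm.contDiffAt (hO.mem_nhds x.2)).differentiableAt (by simp)).hasFDerivAt
    have hζij : ∀ i, fderiv ℝ (fun X => ζ X i) x.1 (Pi.single j 1) = fderiv ℝ ζ x.1 (Pi.single j 1) i := by
      intro i
      have := (hasFDerivAt_pi'.mp hζd i).fderiv
      rw [this]
      rfl
    have h1 : (fun s : ℝ => fderiv ℝ (fun z : E3 × ℝ => lft F (z.1 + z.2 • ζ z.1)) (x.1, s) (Pi.single j 1, 0))
        =ᶠ[𝓝 0] fun s => G F j (x.1 + s • ζ x.1) +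
          ∑ i, fderiv ℝ (fun X => ζ X i) x.1 (Pi.single j 1) * (s * G F i (x.1 + s • ζ x.1)) := by
      filter_upwards [ev_mem hO x.2] with s hs
      have a1 : HasFDerivAt (fun z : E3 × ℝ => z.1 + z.2 • ζ z.1)
          (ContinuousLinearMap.fst ℝ E3 ℝ + (s • ((fderiv ℝ ζ x.1).comp (ContinuousLinearMap.fst ℝ E3 ℝ)) +
            (ContinuousLinearMap.snd ℝ E3 ℝ).smulRight (ζ x.1))) (x.1, s) := by
        have b1 : HasFDerivAt (fun z : E3 × ℝ => ζ z.1)
            ((fderiv ℝ ζ x.1).comp (ContinuousLinearMap.fst ℝ E3 ℝ)) (x.1, s) :=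
          HasFDerivAt.comp (x.1, s) (g := ζ) (f := fun z : E3 × ℝ => z.1) hζd hasFDerivAt_fst
        exact hasFDerivAt_fst.add (hasFDerivAt_snd.smul b1)
      have a2 : HasFDerivAt (lft F) (fderiv ℝ (lft F) (x.1 + s • ζ x.1)) (x.1 + s • ζ x.1) :=
        ((hlft.contDiffAt (hO.mem_nhds hs)).differentiableAt (by simp)).hasFDerivAt
      have a3 : HasFDerivAt (fun z : E3 × ℝ => lft F (z.1 + z.2 • ζ z.1)) _ (x.1, s) :=
        HasFDerivAt.comp (x.1, s) (g := lft F) (f := fun z : E3 × ℝ => z.1 + z.2 • ζ z.1) a2 a1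
      rw [a3.fderiv]
      have a4 : ((fderiv ℝ (lft F) (x.1 + s • ζ x.1)).comp
          (ContinuousLinearMap.fst ℝ E3 ℝ + (s • ((fderiv ℝ ζ x.1).comp (ContinuousLinearMap.fst ℝ E3 ℝ)) +
            (ContinuousLinearMap.snd ℝ E3 ℝ).smulRight (ζ x.1)))) (Pi.single j 1, 0) =
          fderiv ℝ (lft F) (x.1 + s • ζ x.1) (Pi.single j 1) +
            s * fderiv ℝ (lft F) (x.1 + s • ζ x.1) (fderiv ℝ ζ x.1 (Pi.single j 1)) := by
        simp
      rw [a4, fderiv_sum (lft F) (x.1 + s • ζ x.1) (fderiv ℝ ζ x.1 (Pi.single j 1)), Finset.mul_sum]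
      congr 1
      apply Finset.sum_congr rfl
      intro i _
      rw [hζij]
      unfold G
      ring
    have hc : ∀ i, ContDiffAt ℝ ((k + 1 : ℕ) : WithTop ℕ∞) (fun s : ℝ => G F i (x.1 + s • ζ x.1)) 0 :=
      fun i => cd_nat hO (hGs i) x.2 (k + 1)
    have hc2 : ∀ i, ContDiffAt ℝ ((k + 1 : ℕ) : WithTop ℕ∞)
        (fun s : ℝ => fderiv ℝ (fun X => ζ X i) x.1 (Pi.single j 1) * (s * G F i (x.1 + s • ζ x.1))) 0 :=
      fun i => contDiffAt_const.mul (contDiffAt_id.mul (hc i))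
    rw [h1.iteratedDeriv_eq (k + 1), iteratedDeriv_fun_add (hc j) (ContDiffAt.sum fun i _ => hc2 i),
      iteratedDeriv_fun_sum (fun i _ => hc2 i), map_add, map_mul, eM, map_natCast]
    congr 1
    unfold dot
    rw [map_sum, Finset.mul_sum]
    apply Finset.sum_congr rfl
    intro i _
    rw [iteratedDeriv_const_mul_field, iter_mul_id _ (cd_at hO (hGs i) x.2), map_mul, eM, eD]
    ring
  · apply ext_ev
    intro x
    rw [hcon, map_zero]
    exact hthree x.1 x.2

theorem JETS0 : S_JETS0 := by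
  intro hLFT hTK U F ζ hL hF d hd
  obtain ⟨hO, hlft, hhom, -, hEul, -, -⟩ := hLFT U F hL.isOpen hL.smooth
  exact core0 hTK F ζ (cone U) hO hlft (fun X hX r hr => (hhom X hX r hr).2) hEul (fun X hX => hX.1)
    hF.smooth hF.homog hF.two hF.one hF.three d hd

end Pool.Agent.Run7.h71.CE
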